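import Pool.Agent.N81.Cay.Stm

/-!
Equivalence relations generated by pairs: joining, exchanging and counting.
-/

namespace Pool.Agent.N81.Cay

universe u

variable {V : Type u}

theorem sr (s : Setoid V) (a : V) : s a a := s.iseqv.refl a

theorem ss {s : Setoid V} {a b : V} (h : s a b) : s b a := s.iseqv.symm h

theorem st {s : Setoid V} {a b c : V} (h : s a b) (k : s b c) : s a c := s.iseqv.trans h k

theorem conn_le_iff (r : Setoid V) (F : Finset (V × V)) (s : Setoid V) :
    conn r F ≤ s ↔ r ≤ s ∧ ∀ e ∈ F, s e.1 e.2 := by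
  unfold conn
  rw [sup_le_iff]
  constructor
  · rintro ⟨h1, h2⟩
    exact ⟨h1, fun e he => h2 (Relation.EqvGen.rel _ _ he)⟩
  · rintro ⟨h1, h2⟩
    refine ⟨h1, ?_⟩
    intro a b hab
    induction hab with
    | rel x y h => exact h2 (x, y) h
    | refl x => exact sr s x
    | symm x y _ ih => exact ss ih
    | trans x y z _ _ ih1 ih2 => exact st ih1 ih2

theorem le_conn (r : Setoid V) (F : Finset (V × V)) : r ≤ conn r F :=
  ((conn_le_iff r F _).1 le_rfl).1

theorem conn_mem (r : Setoid V) {F : Finset (V × V)} {e : V × V} (he : e ∈ F) :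
    conn r F e.1 e.2 :=
  ((conn_le_iff r F _).1 le_rfl).2 e he

theorem conn_mono (r : Setoid V) {F F' : Finset (V × V)} (h : F ⊆ F') : conn r F ≤ conn r F' :=
  (conn_le_iff r F _).2 ⟨le_conn r F', fun _ he => conn_mem r (h he)⟩

theorem conn_empty (r : Setoid V) : conn r ∅ = r :=
  le_antisymm ((conn_le_iff r ∅ _).2 ⟨le_rfl, by simp⟩) (le_conn r ∅)

variable [DecidableEq V]

theorem conn_union_le (r : Setoid V) {F F' D : Finset (V × V)} (h : conn r F ≤ conn r F') :
    conn r (F ∪ D) ≤ conn r (F' ∪ D) := by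
  rw [conn_le_iff]
  refine ⟨le_conn _ _, fun e he => ?_⟩
  rcases Finset.mem_union.1 he with h1 | h1
  · exact conn_mono r Finset.subset_union_left (h (conn_mem r h1))
  · exact conn_mem r (Finset.mem_union_right _ h1)

theorem conn_union (r : Setoid V) {F F' : Finset (V × V)} (D : Finset (V × V))
    (h : conn r F = conn r F') : conn r (F ∪ D) = conn r (F' ∪ D) :=
  le_antisymm (conn_union_le r h.le) (conn_union_le r h.ge)

/-- joining `x` and `y` -/
def join (s : Setoid V) (x y : V) : Setoid V where
  r a b := s a b ∨ (s a x ∧ s y b) ∨ (s a y ∧ s x b)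
  iseqv := by
    refine ⟨fun a => Or.inl (sr s a), ?_, ?_⟩
    · rintro a b (h | ⟨h1, h2⟩ | ⟨h1, h2⟩)
      · exact Or.inl (ss h)
      · exact Or.inr (Or.inr ⟨ss h2, ss h1⟩)
      · exact Or.inr (Or.inl ⟨ss h2, ss h1⟩)
    · rintro a b c (h | ⟨h1, h2⟩ | ⟨h1, h2⟩) (k | ⟨k1, k2⟩ | ⟨k1, k2⟩)
      · exact Or.inl (st h k)
      · exact Or.inr (Or.inl ⟨st h k1, k2⟩)
      · exact Or.inr (Or.inr ⟨st h k1, k2⟩)
      · exact Or.inr (Or.inl ⟨h1, st h2 k⟩)
      · exact Or.inl (st h1 (st (ss k1) (st (ss h2) k2)))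
      · exact Or.inl (st h1 k2)
      · exact Or.inr (Or.inr ⟨h1, st h2 k⟩)
      · exact Or.inl (st h1 k2)
      · exact Or.inl (st h1 (st (ss k1) (st (ss h2) k2)))

omit [DecidableEq V] in
theorem join_apply (s : Setoid V) (x y a b : V) :
    join s x y a b ↔ s a b ∨ (s a x ∧ s y b) ∨ (s a y ∧ s x b) := Iff.rfl

theorem conn_insert (r : Setoid V) (F : Finset (V × V)) (e : V × V) :
    conn r (insert e F) = join (conn r F) e.1 e.2 := by
  apply le_antisymm
  · rw [conn_le_iff]
    refine ⟨fun a b h => Or.inl (le_conn r F h), fun f hf => ?_⟩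
    rcases Finset.mem_insert.1 hf with rfl | h
    · exact Or.inr (Or.inl ⟨sr _ _, sr _ _⟩)
    · exact Or.inl (conn_mem r h)
  · have h1 : conn r F ≤ conn r (insert e F) := conn_mono r (Finset.subset_insert e F)
    have h2 : conn r (insert e F) e.1 e.2 := conn_mem r (Finset.mem_insert_self e F)
    rintro a b (h | ⟨h, k⟩ | ⟨h, k⟩)
    · exact h1 h
    · exact st (h1 h) (st h2 (h1 k))
    · exact st (h1 h) (st (ss h2) (h1 k))

theorem conn_insert_iff (r : Setoid V) (F : Finset (V × V)) (e : V × V) (a b : V) :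
    conn r (insert e F) a b ↔ conn r F a b ∨ (conn r F a e.1 ∧ conn r F e.2 b) ∨
      (conn r F a e.2 ∧ conn r F e.1 b) := by
  rw [conn_insert]; exact join_apply _ _ _ _ _

/-- exchanging `e` with `(u, v)` -/
theorem conn_exch (r : Setoid V) {F : Finset (V × V)} {e : V × V} {u v : V}
    (h1 : ¬ conn r F u v) (h2 : conn r (insert e F) u v) :
    conn r (insert (u, v) F) = conn r (insert e F) := by
  have hF : conn r F ≤ conn r (insert (u, v) F) := conn_mono r (Finset.subset_insert _ _)
  have huv : conn r (insert (u, v) F) u v := conn_mem r (Finset.mem_insert_self (u, v) F)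
  apply le_antisymm
  · rw [conn_le_iff]
    refine ⟨le_conn _ _, fun f hf => ?_⟩
    rcases Finset.mem_insert.1 hf with rfl | h
    · exact h2
    · exact conn_mem r (Finset.mem_insert_of_mem h)
  · rw [conn_le_iff]
    refine ⟨le_conn _ _, fun f hf => ?_⟩
    rcases Finset.mem_insert.1 hf with rfl | h
    · rcases (conn_insert_iff r F f u v).1 h2 with h | ⟨h, k⟩ | ⟨h, k⟩
      · exact absurd h h1
      · exact st (ss (hF h)) (st huv (ss (hF k)))
      · exact st (hF k) (st (ss huv) (hF h))
    · exact conn_mem r (Finset.mem_insert_of_mem h)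

/-- the number of classes -/
noncomputable def nc (s : Setoid V) : ℕ := Nat.card (Quotient s)

omit [DecidableEq V] in
theorem nc_join [Finite V] (s : Setoid V) {x y : V} (h : ¬ s x y) : nc s = nc (join s x y) + 1 := by
  classical
  have : Fintype V := Fintype.ofFinite V
  have : Fintype (Quotient s) := Fintype.ofFinite _
  have : Fintype (Quotient (join s x y)) := Fintype.ofFinite _
  let q : Quotient s := Quotient.mk s x
  have key : Nonempty ({c : Quotient s // c ≠ q} ≃ Quotient (join s x y)) := by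
    let f : {c : Quotient s // c ≠ q} → Quotient (join s x y) := fun c =>
      Quotient.map' (s₁ := s) (s₂ := join s x y) id (fun a b hab => Or.inl hab) c.1
    refine ⟨Equiv.ofBijective f ⟨?_, ?_⟩⟩
    · rintro ⟨a, ha⟩ ⟨b, hb⟩ hab
      induction a using Quotient.inductionOn with | _ a
      induction b using Quotient.inductionOn with | _ b
      have h1 : join s x y a b := Quotient.exact hab
      have h2 : ¬ s a x := fun h => ha (Quotient.sound h)
      have h3 : ¬ s b x := fun h => hb (Quotient.sound h)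
      apply Subtype.ext
      apply Quotient.sound
      rcases h1 with h | ⟨h, _⟩ | ⟨_, h⟩
      · exact h
      · exact absurd h h2
      · exact absurd (ss h) h3
    · intro c
      induction c using Quotient.inductionOn with | _ c
      by_cases hc : s c x
      · refine ⟨⟨Quotient.mk s y, fun h' => h (ss (Quotient.exact h'))⟩, ?_⟩
        exact Quotient.sound (s := join s x y) (Or.inr (Or.inr ⟨sr s y, ss hc⟩))
      · refine ⟨⟨Quotient.mk s c, fun h' => hc (Quotient.exact h')⟩, ?_⟩
        rfl
  obtain ⟨e⟩ := key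
  unfold nc
  rw [← Nat.card_congr e, Nat.card_eq_fintype_card, Nat.card_eq_fintype_card,
    Fintype.card_subtype_compl, Fintype.card_subtype_eq]
  have : 0 < Fintype.card (Quotient s) := Fintype.card_pos_iff.2 ⟨q⟩
  omega

theorem nc_insert [Finite V] (r : Setoid V) (F : Finset (V × V)) (e : V × V)
    (h : ¬ conn r F e.1 e.2) : nc (conn r F) = nc (conn r (insert e F)) + 1 := by
  rw [conn_insert]; exact nc_join _ h

end Pool.Agent.N81.Cay
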