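import Pool.Agent.N81.Cay.Conn

/-!
The closure argument (in the style of Fürer and Raghavachari) for matchings which join the classes
of an equivalence relation.
-/

namespace Pool.Agent.N81.Cay

universe u

variable {V : Type u}

/-- `v` is not an end of a pair in `D` -/
def Av (D : Finset (V × V)) (v : V) : Prop := ∀ e ∈ D, ¬ On v e

theorem Av.mono {D D' : Finset (V × V)} (h : D ⊆ D') {v : V} (hv : Av D' v) : Av D v :=
  fun e he => hv e (h he)

theorem IsMat.mono {E : V → V → Prop} {M M' : Finset (V × V)} (h : IsMat E M) (hs : M' ⊆ M) :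
    IsMat E M' :=
  ⟨fun e he => h.edge e (hs he), fun e he => h.ne e (hs he),
    fun e he f hf => h.disj e (hs he) f (hs hf)⟩

variable [DecidableEq V]

theorem IsMat.union {E : V → V → Prop} {K D : Finset (V × V)} (hK : IsMat E K) (hD : IsMat E D)
    (h : ∀ e ∈ K, ∀ w, On w e → Av D w) : IsMat E (K ∪ D) := by
  refine ⟨?_, ?_, ?_⟩
  · intro e he
    rcases Finset.mem_union.1 he with h1 | h1
    · exact hK.edge e h1
    · exact hD.edge e h1
  · intro e he
    rcases Finset.mem_union.1 he with h1 | h1
    · exact hK.ne e h1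
    · exact hD.ne e h1
  · intro e he f hf v hve hvf
    rcases Finset.mem_union.1 he with h1 | h1 <;> rcases Finset.mem_union.1 hf with h2 | h2
    · exact hK.disj e h1 f h2 v hve hvf
    · exact absurd hvf (h e h1 v hve f h2)
    · exact absurd hve (h f h2 v hvf e h1)
    · exact hD.disj e h1 f h2 v hve hvf

theorem IsMat.insert {E : V → V → Prop} {K : Finset (V × V)} (hK : IsMat E K) {u v : V}
    (huv : E u v) (hne : u ≠ v) (hu : Av K u) (hv : Av K v) : IsMat E (insert (u, v) K) := by
  have hav : ∀ f ∈ K, ∀ w, On w (u, v) → ¬ On w f := by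
    rintro f hf w (h | h) hw
    · rw [← h] at hw; exact hu f hf hw
    · rw [← h] at hw; exact hv f hf hw
  refine ⟨?_, ?_, ?_⟩
  · intro e he
    rcases Finset.mem_insert.1 he with rfl | h
    · exact huv
    · exact hK.edge e h
  · intro e he
    rcases Finset.mem_insert.1 he with rfl | h
    · exact hne
    · exact hK.ne e h
  · intro e he f hf w hwe hwf
    rcases Finset.mem_insert.1 he with rfl | h1 <;> rcases Finset.mem_insert.1 hf with rfl | h2
    · rfl
    · exact absurd hwf (hav f h2 w hwe)
    · exact absurd hwe (hav e h1 w hwf)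
    · exact hK.disj e h1 f h2 w hwe hwf

omit [DecidableEq V] in
theorem On.conn {r : Setoid V} {F K : Finset (V × V)} (h : conn r K = conn r F) {e : V × V}
    (he : e ∈ K) {w : V} (hw : On w e) : conn r F e.1 w := by
  rcases hw with h1 | h1
  · exact h1 ▸ sr _ _
  · rw [← h1, ← h]; exact conn_mem r he

/-- `K` is a matching off `v` and off `D` with the components of `F` -/
structure Alt (r : Setoid V) (E : V → V → Prop) (D F K : Finset (V × V)) (v : V) : Prop where
  mat : IsMat E K
  nv : Av K v
  av : ∀ e ∈ K, ∀ w, On w e → Av D w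
  eq : conn r K = conn r F

/-- combining two changes in different components -/
theorem combine (r : Setoid V) (E : V → V → Prop) {D F K K' : Finset (V × V)} {u v : V}
    (hK : Alt r E D F K u) (hK' : Alt r E D F K' v) (huv : ¬ conn r F u v) :
    ∃ L, Alt r E D F L u ∧ Av L v := by
  classical
  let A := K.filter fun e => conn r F e.1 u
  let B := K'.filter fun e => ¬ conn r F e.1 u
  have hA : ∀ e, e ∈ A ↔ e ∈ K ∧ conn r F e.1 u := fun e => Finset.mem_filter
  have hB : ∀ e, e ∈ B ↔ e ∈ K' ∧ ¬ conn r F e.1 u := fun e => Finset.mem_filter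
  have hAw : ∀ e ∈ A, ∀ w, On w e → conn r F w u := fun e he w hw =>
    st (ss (hw.conn hK.eq ((hA e).1 he).1)) ((hA e).1 he).2
  have hBw : ∀ e ∈ B, ∀ w, On w e → ¬ conn r F w u := fun e he w hw h =>
    ((hB e).1 he).2 (st (hw.conn hK'.eq ((hB e).1 he).1) h)
  have hAK : A ⊆ K := Finset.filter_subset _ _
  have hBK : B ⊆ K' := Finset.filter_subset _ _
  refine ⟨A ∪ B, ⟨?_, ?_, ?_, ?_⟩, ?_⟩
  · refine (hK.mat.mono hAK).union (hK'.mat.mono hBK) ?_
    intro e he w hw f hf hwf
    exact hBw f hf w hwf (hAw e he w hw)
  · intro e he h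
    rcases Finset.mem_union.1 he with h1 | h1
    · exact hK.nv e (hAK h1) h
    · exact hBw e h1 u h (sr _ _)
  · intro e he w hw
    rcases Finset.mem_union.1 he with h1 | h1
    · exact hK.av e (hAK h1) w hw
    · exact hK'.av e (hBK h1) w hw
  · apply le_antisymm
    · rw [conn_le_iff]
      refine ⟨le_conn _ _, fun e he => ?_⟩
      rcases Finset.mem_union.1 he with h1 | h1
      · rw [← hK.eq]; exact conn_mem r (hAK h1)
      · rw [← hK'.eq]; exact conn_mem r (hBK h1)
    · let T : Setoid V :=
        { r := fun a b => conn r F a b ∧ (conn r F a u → conn r (A ∪ B) a b)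
          iseqv := by
            refine ⟨fun a => ⟨sr _ _, fun _ => sr _ _⟩, ?_, ?_⟩
            · rintro a b ⟨h1, h2⟩
              exact ⟨ss h1, fun h => ss (h2 (st h1 h))⟩
            · rintro a b c ⟨h1, h2⟩ ⟨k1, k2⟩
              exact ⟨st h1 k1, fun h => st (h2 h) (k2 (st (ss h1) h))⟩ }
      let T' : Setoid V :=
        { r := fun a b => conn r F a b ∧ (¬ conn r F a u → conn r (A ∪ B) a b)
          iseqv := by
            refine ⟨fun a => ⟨sr _ _, fun _ => sr _ _⟩, ?_, ?_⟩
            · rintro a b ⟨h1, h2⟩
              exact ⟨ss h1, fun h => ss (h2 fun h' => h (st (ss h1) h'))⟩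
            · rintro a b c ⟨h1, h2⟩ ⟨k1, k2⟩
              exact ⟨st h1 k1, fun h => st (h2 h) (k2 fun h' => h (st h1 h'))⟩ }
      have hT : conn r F ≤ T := by
        rw [← hK.eq, conn_le_iff]
        refine ⟨fun a b h => ⟨le_conn r F h, fun _ => le_conn r _ h⟩, fun e he => ?_⟩
        refine ⟨?_, fun h => conn_mem r (Finset.mem_union_left _ ((hA e).2 ⟨he, h⟩))⟩
        rw [← hK.eq]; exact conn_mem r he
      have hT' : conn r F ≤ T' := by
        rw [← hK'.eq, conn_le_iff]
        refine ⟨fun a b h => ⟨le_conn r F h, fun _ => le_conn r _ h⟩, fun e he => ?_⟩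
        refine ⟨?_, fun h => conn_mem r (Finset.mem_union_right _ ((hB e).2 ⟨he, h⟩))⟩
        rw [← hK'.eq]; exact conn_mem r he
      intro a b h
      by_cases hu : conn r F a u
      · exact (hT h).2 hu
      · exact (hT' h).2 hu
  · intro e he h
    rcases Finset.mem_union.1 he with h1 | h1
    · exact huv (ss (hAw e h1 v h))
    · exact hK'.nv e (hBK h1) h

theorem closure [Fintype V] (r : Setoid V) (E : V → V → Prop) (M : Finset (V × V))
    (hM : IsMat E M) (hmin : ∀ M', IsMat E M' → nc (conn r M) ≤ nc (conn r M')) :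
    ∃ F ⊆ M, ∀ u v, Av (M \ F) u → Av (M \ F) v → E u v → conn r F u v := by
  classical
  let Good : Finset (V × V) → Prop := fun F =>
    ∀ v, Av (M \ F) v → ∃ K, Alt r E (M \ F) F K v
  have h0 : Good ∅ := by
    intro v _
    exact ⟨∅, ⟨fun e he => absurd he (Finset.notMem_empty e),
      fun e he => absurd he (Finset.notMem_empty e),
      fun e he => absurd he (Finset.notMem_empty e)⟩,
      fun e he => absurd he (Finset.notMem_empty e),
      fun e he => absurd he (Finset.notMem_empty e), rfl⟩
  obtain ⟨F, hF, hmax⟩ := Finset.exists_max_image (M.powerset.filter Good) Finset.card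
    ⟨∅, Finset.mem_filter.2 ⟨Finset.empty_mem_powerset _, h0⟩⟩
  rw [Finset.mem_filter, Finset.mem_powerset] at hF
  obtain ⟨hFM, hGF⟩ := hF
  refine ⟨F, hFM, ?_⟩
  intro u v hu hv huv
  by_contra hno
  have hne : u ≠ v := fun h => hno (h ▸ sr _ _)
  obtain ⟨Ku, hKu⟩ := hGF u hu
  obtain ⟨Kv, hKv⟩ := hGF v hv
  obtain ⟨L, hL, hLv⟩ := combine r E hKu hKv hno
  have hMF : F ∪ (M \ F) = M := Finset.union_sdiff_of_subset hFM
  have hmatD : IsMat E (M \ F) := hM.mono Finset.sdiff_subset
  -- `u` and `v` are in the same component of `M`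
  have hcon : conn r M u v := by
    by_contra hc
    have h1 : conn r (L ∪ (M \ F)) = conn r M := by
      rw [conn_union r (M \ F) hL.eq, hMF]
    have h2 : IsMat E (L ∪ (M \ F)) := hL.mat.union hmatD hL.av
    have h3 : Av (L ∪ (M \ F)) u := by
      intro e he
      rcases Finset.mem_union.1 he with h | h
      · exact hL.nv e h
      · exact hu e h
    have h4 : Av (L ∪ (M \ F)) v := by
      intro e he
      rcases Finset.mem_union.1 he with h | h
      · exact hLv e h
      · exact hv e h
    have h5 := hmin _ (h2.insert huv hne h3 h4)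
    have h6 := nc_insert r (L ∪ (M \ F)) (u, v) (by rw [h1]; exact hc)
    rw [h1] at h6
    omega
  -- a minimal set of pairs joining `u` and `v`
  obtain ⟨D, hD, hDmin⟩ := Finset.exists_min_image
    ((M \ F).powerset.filter fun D => conn r (F ∪ D) u v) Finset.card
    ⟨M \ F, Finset.mem_filter.2 ⟨Finset.mem_powerset_self _, by rw [hMF]; exact hcon⟩⟩
  rw [Finset.mem_filter, Finset.mem_powerset] at hD
  obtain ⟨hDM, hDc⟩ := hD
  have hDne : D.Nonempty := by
    rw [Finset.nonempty_iff_ne_empty]
    rintro rfl
    rw [Finset.union_empty] at hDc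
    exact hno hDc
  have hDer : ∀ e ∈ D, ¬ conn r (F ∪ D.erase e) u v := by
    intro e he h
    have h1 := hDmin (D.erase e) (Finset.mem_filter.2 ⟨Finset.mem_powerset.2
      ((Finset.erase_subset e D).trans hDM), h⟩)
    have h2 := Finset.card_erase_lt_of_mem he
    omega
  have hFD : F ∪ D ⊆ M := Finset.union_subset hFM (hDM.trans Finset.sdiff_subset)
  have hsub : M \ (F ∪ D) ⊆ M \ F :=
    Finset.sdiff_subset_sdiff le_rfl Finset.subset_union_left
  -- ends of pairs in `D` are off the rest
  have hDav : ∀ e ∈ D, ∀ x, On x e → Av (M \ (F ∪ D)) x := by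
    intro e he x hx f hf hxf
    rw [Finset.mem_sdiff, Finset.mem_union, not_or] at hf
    have := hM.disj e (Finset.mem_sdiff.1 (hDM he)).1 f hf.1 x hx hxf
    rw [← this] at hf
    exact hf.2.2 he
  have hGD : Good (F ∪ D) := by
    intro w hw
    by_cases hwF : Av (M \ F) w
    · obtain ⟨K, hK⟩ := hGF w hwF
      refine ⟨K ∪ D, ?_, ?_, ?_, ?_⟩
      · exact hK.mat.union (hmatD.mono hDM) fun e he x hx => (hK.av e he x hx).mono hDM
      · intro e he
        rcases Finset.mem_union.1 he with h | h
        · exact hK.nv e h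
        · exact hwF e (hDM h)
      · intro e he x hx
        rcases Finset.mem_union.1 he with h | h
        · exact (hK.av e h x hx).mono hsub
        · exact hDav e h x hx
      · exact conn_union r D hK.eq
    · unfold Av at hwF
      push Not at hwF
      obtain ⟨e, he, hwe⟩ := hwF
      have heD : e ∈ D := by
        by_contra h
        refine hw e (Finset.mem_sdiff.2 ⟨(Finset.mem_sdiff.1 he).1, ?_⟩) hwe
        rw [Finset.mem_union, not_or]
        exact ⟨(Finset.mem_sdiff.1 he).2, h⟩
      have hDe : D.erase e ⊆ M \ F := (Finset.erase_subset e D).trans hDM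
      have hins : insert e (F ∪ D.erase e) = F ∪ D := by
        rw [← Finset.union_insert, Finset.insert_erase heD]
      have hLu : Av (L ∪ D.erase e) u := by
        intro f hf
        rcases Finset.mem_union.1 hf with h | h
        · exact hL.nv f h
        · exact hu f (hDe h)
      have hLv' : Av (L ∪ D.erase e) v := by
        intro f hf
        rcases Finset.mem_union.1 hf with h | h
        · exact hLv f h
        · exact hv f (hDe h)
      refine ⟨insert (u, v) (L ∪ D.erase e), ?_, ?_, ?_, ?_⟩
      · exact (hL.mat.union (hmatD.mono hDe) fun f hf x hx => (hL.av f hf x hx).mono hDe).insert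
          huv hne hLu hLv'
      · intro f hf hwf
        rcases Finset.mem_insert.1 hf with rfl | hf
        · rcases hwf with h | h
          · exact hu e he (by rw [show u = w from h]; exact hwe)
          · exact hv e he (by rw [show v = w from h]; exact hwe)
        · rcases Finset.mem_union.1 hf with h | h
          · exact hL.av f h w hwf e he hwe
          · have h1 := hM.disj e (Finset.mem_sdiff.1 he).1 f (Finset.mem_sdiff.1 (hDe h)).1 w hwe hwf
            exact (Finset.mem_erase.1 h).1 h1.symm
      · intro f hf x hx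
        rcases Finset.mem_insert.1 hf with rfl | hf
        · rcases hx with h | h
          · rw [← show u = x from h]; exact hu.mono hsub
          · rw [← show v = x from h]; exact hv.mono hsub
        · rcases Finset.mem_union.1 hf with h | h
          · exact (hL.av f h x hx).mono hsub
          · exact hDav f (Finset.mem_of_mem_erase h) x hx
      · rw [conn_insert, conn_union r (D.erase e) hL.eq, ← conn_insert,
          conn_exch r (hDer e heD) (e := e) (by rw [hins]; exact hDc), hins]
  have h1 := hmax (F ∪ D) (Finset.mem_filter.2 ⟨Finset.mem_powerset.2 hFD, hGD⟩)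
  obtain ⟨e, he⟩ := hDne
  have h2 : F ⊂ F ∪ D := by
    refine (Finset.ssubset_iff_of_subset Finset.subset_union_left).2 ⟨e, ?_, ?_⟩
    · exact Finset.mem_union_right _ he
    · exact (Finset.mem_sdiff.1 (hDM he)).2
  have h3 := Finset.card_lt_card h2
  omega

theorem tight : S_tight.{u} := by
  intro V _ _ r E hE
  classical
  -- matchings with the least number of components, and then with the least number of pairs
  obtain ⟨M0, hM0, hmin0⟩ := Finset.exists_min_image
    ((Finset.univ : Finset (Finset (V × V))).filter (IsMat E)) (fun M => nc (conn r M))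
    ⟨∅, Finset.mem_filter.2 ⟨Finset.mem_univ _, ⟨fun e he => absurd he (Finset.notMem_empty e),
      fun e he => absurd he (Finset.notMem_empty e),
      fun e he => absurd he (Finset.notMem_empty e)⟩⟩⟩
  obtain ⟨M, hM', hmin1⟩ := Finset.exists_min_image
    ((Finset.univ : Finset (Finset (V × V))).filter
      fun M => IsMat E M ∧ nc (conn r M) = nc (conn r M0)) Finset.card
    ⟨M0, Finset.mem_filter.2 ⟨Finset.mem_univ _, (Finset.mem_filter.1 hM0).2, rfl⟩⟩
  obtain ⟨hM, hnc⟩ := (Finset.mem_filter.1 hM').2
  have hmin : ∀ M', IsMat E M' → nc (conn r M) ≤ nc (conn r M') := by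
    intro M' h
    rw [hnc]
    exact hmin0 M' (Finset.mem_filter.2 ⟨Finset.mem_univ _, h⟩)
  have hfor : ∀ e ∈ M, ¬ conn r (M.erase e) e.1 e.2 := by
    intro e he h
    have h1 : conn r (M.erase e) = conn r M := by
      apply le_antisymm (conn_mono r (Finset.erase_subset e M))
      rw [conn_le_iff]
      refine ⟨le_conn _ _, fun f hf => ?_⟩
      by_cases hfe : f = e
      · rw [hfe]; exact h
      · exact conn_mem r (Finset.mem_erase.2 ⟨hfe, hf⟩)
    have h2 := hmin1 (M.erase e) (Finset.mem_filter.2 ⟨Finset.mem_univ _,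
      hM.mono (Finset.erase_subset e M), by rw [h1]; exact hnc⟩)
    have h3 := Finset.card_erase_lt_of_mem he
    omega
  by_cases h1 : nc (conn r M) ≤ 1
  · left
    refine ⟨M, hM, hfor, ?_⟩
    intro x y
    have : Fintype (Quotient (conn r M)) := Fintype.ofFinite _
    unfold nc at h1
    rw [Nat.card_eq_fintype_card, Fintype.card_le_one_iff] at h1
    exact Quotient.exact (h1 (Quotient.mk _ x) (Quotient.mk _ y))
  · right
    obtain ⟨F, hFM, hF⟩ := closure r E M hM hmin
    refine ⟨M, F, hM, hFM, ?_, hF⟩
    have key : ∀ D : Finset (V × V), D ⊆ M \ F →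
        nc (conn r F) = nc (conn r (F ∪ D)) + D.card := by
      intro D
      induction D using Finset.induction_on with
      | empty => intro _; rw [Finset.union_empty, Finset.card_empty, add_zero]
      | insert e D heD ih =>
        intro hD
        have he := hD (Finset.mem_insert_self e D)
        rw [ih ((Finset.subset_insert e D).trans hD), Finset.card_insert_of_notMem heD,
          Finset.union_insert, nc_insert r (F ∪ D) e ?_]
        · ring
        · intro h
          refine hfor e (Finset.mem_sdiff.1 he).1 (conn_mono r ?_ h)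
          intro f hf
          rw [Finset.mem_erase]
          rcases Finset.mem_union.1 hf with h' | h'
          · exact ⟨fun h'' => (Finset.mem_sdiff.1 he).2 (h'' ▸ h'), hFM h'⟩
          · exact ⟨fun h'' => heD (h'' ▸ h'),
              (Finset.mem_sdiff.1 (hD (Finset.mem_insert_of_mem h'))).1⟩
    have h2 := key (M \ F) le_rfl
    rw [Finset.union_sdiff_of_subset hFM] at h2
    unfold nc at h1 h2
    omega

end Pool.Agent.N81.Cay
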