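import Pool.Agent.N81.Cay.Span
import Pool.Agent.N342.CayB
import Pool.Agent.N455.CayC

/-!
The lifting theorem: Hamiltonian cycles of a Cayley graph from those of a subgroup.
-/

namespace Pool.Agent.N81.Cay

open Pool.Agent.R759.HC

universe u

variable {V : Type u}

theorem Edge.symm' {ρ : Equiv.Perm V} {x y : V} (h : Edge ρ x y) : Edge ρ y x := Or.symm h

/-- merging all cycles along a spanning matching of the cycle edges -/
theorem merge_all' (hmerge : S_merge.{u}) [Finite V] [DecidableEq V] (R : V → V → Prop)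
    (hR : ∀ x y, R x y → R y x) (σ : Equiv.Perm V) (hσ : ∀ x, R x (σ x)) (h3 : ∀ x, σ (σ x) ≠ x)
    (r : Setoid V) (hr : ∀ x y, r x y ↔ σ.SameCycle x y) (M : Finset (V × V))
    (hM : Spans r (fun u v => (R u v ∧ R (σ u) (σ v)) ∨ (R u (σ v) ∧ R (σ u) v)) M) :
    ∃ ρ : Equiv.Perm V, (∀ x, R x (ρ x)) ∧ ∀ x y, ρ.SameCycle x y := by
  have key : ∀ F : Finset (V × V), F ⊆ M → ∃ ρ : Equiv.Perm V, (∀ x, R x (ρ x)) ∧
      (∀ x, ρ (ρ x) ≠ x) ∧ (∀ w, Av F w → Edge ρ w (σ w)) ∧
      ∀ x y, ρ.SameCycle x y ↔ conn r F x y := by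
    intro F
    induction F using Finset.induction_on with
    | empty =>
      intro _
      exact ⟨σ, hσ, h3, fun w _ => Or.inl rfl, fun x y => by rw [conn_empty, hr]⟩
    | insert e F heF ih =>
      intro hFM
      obtain ⟨ρ, h1, h2, h4, h5⟩ := ih ((Finset.subset_insert e F).trans hFM)
      obtain ⟨u, v⟩ := e
      have heM : (u, v) ∈ M := hFM (Finset.mem_insert_self _ F)
      have hav : ∀ w, On w (u, v) → Av F w := by
        intro w hw f hf hwf
        have := hM.mat.disj _ heM f (hFM (Finset.mem_insert_of_mem hf)) w hw hwf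
        exact heF (this ▸ hf)
      have hu := h4 u (hav u (Or.inl rfl))
      have hv := h4 v (hav v (Or.inr rfl))
      have hno : ¬ conn r F u v := by
        intro h
        refine hM.forest _ heM (conn_mono r ?_ h)
        intro f hf
        rw [Finset.mem_erase]
        exact ⟨fun h' => heF (h' ▸ hf), hFM (Finset.mem_insert_of_mem hf)⟩
      have hσr : ∀ x, conn r F x (σ x) := fun x =>
        le_conn r F ((hr _ _).2 (Equiv.Perm.sameCycle_apply_right.2 (Equiv.Perm.SameCycle.refl _ _)))
      have hne : ∀ w x, w ≠ x → s(w, σ w) ≠ s(x, σ x) := by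
        intro w x hwx h
        rw [Sym2.eq_iff] at h
        rcases h with ⟨h, _⟩ | ⟨h, h'⟩
        · exact hwx h
        · rw [h] at h'; exact h3 x h'
      have hR' : ∀ x y, (R x y ∨ (Edge ρ x y ∧ s(x, y) ≠ s(u, σ u) ∧ s(x, y) ≠ s(v, σ v))) →
          R x y := by
        rintro x y (h | ⟨h | h, _⟩)
        · exact h
        · rw [← h]; exact h1 x
        · exact hR _ _ (by rw [← h]; exact h1 y)
      rcases hM.mat.edge _ heM with ⟨e1, e2⟩ | ⟨e1, e2⟩
      · obtain ⟨ρ', k1, k2, k3, k4⟩ := hmerge R hR ρ h2 u (σ u) v (σ v) hu hv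
          (fun h => hno ((h5 _ _).1 h)) e1 e2
        refine ⟨ρ', fun x => hR' _ _ (k2 x), k1, ?_, ?_⟩
        · intro w hw
          have hw1 : Av F w := fun f hf => hw f (Finset.mem_insert_of_mem hf)
          have hw2 : ¬ On w (u, v) := hw _ (Finset.mem_insert_self _ F)
          exact k3 _ _ (h4 w hw1) (hne w u fun h => hw2 (Or.inl h.symm))
            (hne w v fun h => hw2 (Or.inr h.symm))
        · intro x y
          rw [k4, conn_insert_iff, h5, h5, h5, h5, h5]
      · have hns : ¬ ρ.SameCycle u (σ v) := fun h =>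
          hno (st ((h5 _ _).1 h) (ss (hσr v)))
        obtain ⟨ρ', k1, k2, k3, k4⟩ := hmerge R hR ρ h2 u (σ u) (σ v) v hu hv.symm' hns e1 e2
        have hsw : s(σ v, v) = s(v, σ v) := Sym2.eq_swap
        rw [hsw] at k2 k3
        refine ⟨ρ', fun x => hR' _ _ (k2 x), k1, ?_, ?_⟩
        · intro w hw
          have hw1 : Av F w := fun f hf => hw f (Finset.mem_insert_of_mem hf)
          have hw2 : ¬ On w (u, v) := hw _ (Finset.mem_insert_self _ F)
          exact k3 _ _ (h4 w hw1) (hne w u fun h => hw2 (Or.inl h.symm))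
            (hne w v fun h => hw2 (Or.inr h.symm))
        · intro x y
          rw [k4, conn_insert_iff, h5, h5, h5, h5, h5]
          constructor
          · rintro (h | ⟨h, k⟩ | ⟨h, k⟩)
            · exact Or.inl h
            · exact Or.inr (Or.inl ⟨h, st (hσr v) k⟩)
            · exact Or.inr (Or.inr ⟨st h (ss (hσr v)), k⟩)
          · rintro (h | ⟨h, k⟩ | ⟨h, k⟩)
            · exact Or.inl h
            · exact Or.inr (Or.inl ⟨h, st (ss (hσr v)) k⟩)
            · exact Or.inr (Or.inr ⟨st h (hσr v), k⟩)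
  obtain ⟨ρ, h1, _, _, h5⟩ := key M le_rfl
  exact ⟨ρ, h1, fun x y => (h5 x y).2 (hM.top x y)⟩

/-- the cycles on cosets of a subgroup with more than two elements are longer than two -/
theorem long_cycles {G : Type u} [Group G] [Finite G] {H : Subgroup G} (hH : 3 ≤ Nat.card H)
    {σ : Equiv.Perm G} (hσ : ∀ x y, σ.SameCycle x y ↔ x⁻¹ * y ∈ H) (x : G) : σ (σ x) ≠ x := by
  classical
  intro h
  have hpow : ∀ n : ℕ, (σ ^ n) x = x ∨ (σ ^ n) x = σ x := by
    intro n
    induction n with
    | zero => left; rfl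
    | succ n ih =>
      rw [pow_succ', Equiv.Perm.mul_apply]
      rcases ih with h' | h'
      · right; rw [h']
      · left; rw [h', h]
  have hmem : ∀ g : H, x * g ∈ ({x, σ x} : Finset G) := by
    intro g
    have h1 : σ.SameCycle x (x * g) := by
      rw [hσ, inv_mul_cancel_left]; exact g.2
    obtain ⟨n, hn⟩ := h1.exists_nat_pow_eq
    rw [Finset.mem_insert, Finset.mem_singleton, ← hn]
    exact hpow n
  have : Fintype H := Fintype.ofFinite H
  have h2 : Fintype.card H ≤ ({x, σ x} : Finset G).card := by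
    rw [← Fintype.card_coe]
    refine Fintype.card_le_of_injective (fun g : H => (⟨x * g, hmem g⟩ : ({x, σ x} : Finset G))) ?_
    intro a b hab
    have := congrArg Subtype.val hab
    exact Subtype.ext (mul_left_cancel this)
  have h3 : ({x, σ x} : Finset G).card ≤ 2 := Finset.card_le_two
  rw [Nat.card_eq_fintype_card] at hH
  omega

open Classical in
/-- counting starting points of the edge `{v, σ v}` -/
theorem count_start {G : Type u} [Group G] [Fintype G] (σ : Equiv.Perm G) (s v : G) :
    (Finset.univ.filter fun x : G => (if σ x = x * s then x else x * s) = v).card ≤ 2 := by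
  have hsub : (Finset.univ.filter fun x : G => (if σ x = x * s then x else x * s) = v) ⊆
      {v, v * s⁻¹} := by
    intro x hx
    rw [Finset.mem_filter] at hx
    have h := hx.2
    rw [Finset.mem_insert, Finset.mem_singleton]
    split_ifs at h with h1
    · left; exact h
    · right; rw [← h, mul_inv_cancel_right]
  exact (Finset.card_le_card hsub).trans Finset.card_le_two

open Classical in
theorem count_start' {G : Type u} [Group G] [Fintype G] (σ : Equiv.Perm G) (s v : G)
    (hs : s * s ≠ 1) (hσ : ∀ x, Edge σ x (x * s)) :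
    (Finset.univ.filter fun x : G => (if σ x = x * s then x else x * s) = v).card ≤ 1 := by
  rw [Finset.card_le_one]
  have hs1 : s ≠ 1 := by rintro rfl; exact hs (one_mul 1)
  have key : ∀ a b : G, σ a = a * s → (if σ a = a * s then a else a * s) = v →
      σ b ≠ b * s → (if σ b = b * s then b else b * s) = v → False := by
    intro a b ha1 ha2 hb1 hb2
    rw [if_pos ha1] at ha2
    rw [if_neg hb1] at hb2
    have h1 : σ (b * s) = b := (hσ b).resolve_left hb1
    rw [hb2, ← ha2, ha1] at h1
    -- `a = b s` and `σ a = a s = b`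
    have h2 : b * s * s = b := by rw [hb2, ← ha2]; exact h1
    rw [mul_assoc] at h2
    exact hs (mul_eq_left.1 h2)
  intro a ha b hb
  rw [Finset.mem_filter] at ha hb
  by_cases h1 : σ a = a * s <;> by_cases h2 : σ b = b * s
  · have ha' := ha.2; have hb' := hb.2
    rw [if_pos h1] at ha'; rw [if_pos h2] at hb'
    rw [ha', hb']
  · exact (key a b h1 ha.2 h2 hb.2).elim
  · exact (key b a h2 hb.2 h1 ha.2).elim
  · have ha' := ha.2; have hb' := hb.2
    rw [if_neg h1] at ha'; rw [if_neg h2] at hb'
    exact mul_right_cancel (ha'.trans hb'.symm)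

end Pool.Agent.N81.Cay
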