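import Pool.Agent.N81.Cay.Lift
import Pool.Agent.N319.CayA

/-!
The lifting theorem.
-/

namespace Pool.Agent.N81.Cay

open Pool.Agent.R759.HC

universe u

open Classical in
/-- sums over `G × Fin k` of weights depending on the second coordinate -/
theorem sum_weights {G : Type u} [Fintype G] {k : ℕ} (w : Fin k → ℝ) (P : G × Fin k → Prop)
    [DecidablePred P] :
    (∑ j : G × Fin k, if P j then w j.2 else 0) =
      ∑ i, w i * (Nat.card {x : G // P (x, i)} : ℝ) := by
  rw [Fintype.sum_prod_type_right]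
  apply Finset.sum_congr rfl
  intro i _
  rw [← Finset.sum_filter]
  change ∑ a : G with P (a, i), w i = _
  rw [Finset.sum_const, nsmul_eq_mul, mul_comm, Nat.card_eq_fintype_card, Fintype.card_subtype]

open Classical in
theorem lift {G : Type u} [Group G] [Finite G] (A : Set G) (hA : ∀ x ∈ A, x⁻¹ ∈ A)
    (H : Subgroup G) (τ : Equiv.Perm G) (hτ : CycOn A (H : Set G) τ) (Z : Set G)
    (hZ : ∀ z ∈ Z, ∀ x ∈ H, Edge τ x (x * z)) (C : Set G)
    (hC : ∀ c ∈ C, c ∈ A ∧ ∃ s ∈ Z, ∃ s' ∈ Z, s⁻¹ * c * s' ∈ A)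
    (hsize : 8 ≤ Nat.card H ∨ (4 ≤ Nat.card H ∧ ∀ z ∈ Z, z * z ≠ 1))
    (hgen : Subgroup.closure ((H : Set G) ∪ C) = ⊤) :
    ∃ σ : Equiv.Perm G, CycOn A Set.univ σ := by
  have : Fintype G := Fintype.ofFinite G
  by_cases htop : H = ⊤
  · rw [htop] at hτ
    exact ⟨τ, hτ⟩
  have h4 : 4 ≤ Nat.card H := by omega
  obtain ⟨σ, hσA, hσc, hσe⟩ := Pool.Agent.N455.CayC.ext A hA H τ hτ
  have hlong := long_cycles (by omega : 3 ≤ Nat.card H) hσc
  obtain ⟨k, c, w, hcC, hw0, hw1, hcut⟩ := Pool.Agent.N342.CayB.cut H C hgen htop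
  choose s hs s' hs' hss using fun i => (hC (c i) (hcC i)).2
  have hcA : ∀ i, c i ∈ A := fun i => (hC (c i) (hcC i)).1
  have hse : ∀ z ∈ Z, ∀ x, Edge σ x (x * z) := fun z hz => hσe z (hZ z hz)
  have hZH : ∀ z ∈ Z, z ∈ H := by
    intro z hz
    have h1 : σ.SameCycle 1 (1 * z) := by
      rcases hse z hz 1 with h | h
      · rw [← h]; exact Equiv.Perm.sameCycle_apply_right.2 (Equiv.Perm.SameCycle.refl _ _)
      · have h2 : σ.SameCycle (1 * z) (σ (1 * z)) :=
          Equiv.Perm.sameCycle_apply_right.2 (Equiv.Perm.SameCycle.refl _ _)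
        rw [h] at h2
        exact h2.symm
    rw [hσc] at h1
    simpa using h1
  let r : Setoid G := QuotientGroup.leftRel H
  have hr : ∀ x y, r x y ↔ σ.SameCycle x y := by
    intro x y
    rw [hσc]
    exact QuotientGroup.leftRel_apply
  let R : G → G → Prop := fun x y => x⁻¹ * y ∈ A
  have hR : ∀ x y, R x y → R y x := by
    intro x y h
    have := hA _ h
    rwa [mul_inv_rev, inv_inv] at this
  let E : G → G → Prop := fun u v => (R u v ∧ R (σ u) (σ v)) ∨ (R u (σ v) ∧ R (σ u) v)
  have hE : ∀ u v, E u v → E v u := by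
    rintro u v (⟨h1, h2⟩ | ⟨h1, h2⟩)
    · exact Or.inl ⟨hR _ _ h1, hR _ _ h2⟩
    · exact Or.inr ⟨hR _ _ h2, hR _ _ h1⟩
  -- the edge of the cycles starting at `x` in direction `t`
  let ed : G → G → G := fun t x => if σ x = x * t then x else x * t
  have hed : ∀ t ∈ Z, ∀ x, (ed t x = x ∧ σ (ed t x) = x * t) ∨ (ed t x = x * t ∧ σ (ed t x) = x) := by
    intro t ht x
    by_cases h : σ x = x * t
    · left
      have : ed t x = x := if_pos h
      rw [this]; exact ⟨rfl, h⟩
    · right
      have : ed t x = x * t := if_neg h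
      rw [this]; exact ⟨rfl, (hse t ht x).resolve_left h⟩
  have hcard_ed : ∀ t ∈ Z, ∀ v, (Nat.card {x : G // ed t x = v} : ℝ) ≤
      (Nat.card H : ℝ) / 4 := by
    intro t ht v
    rw [Nat.card_eq_fintype_card, Fintype.card_subtype]
    rcases hsize with h8 | ⟨_, h2⟩
    · have h1 := count_start σ t v
      have h1' : ((Finset.univ.filter fun x : G => ed t x = v).card : ℝ) ≤ 2 := by
        exact_mod_cast h1
      have h8' : (8 : ℝ) ≤ Nat.card H := by exact_mod_cast h8
      linarith
    · have h1 := count_start' σ t v (h2 t ht) (hse t ht)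
      have h1' : ((Finset.univ.filter fun x : G => ed t x = v).card : ℝ) ≤ 1 := by
        exact_mod_cast h1
      have h4' : (4 : ℝ) ≤ Nat.card H := by exact_mod_cast h4
      linarith
  have hpos : (0 : ℝ) < Nat.card H := by
    have : (4 : ℝ) ≤ Nat.card H := by exact_mod_cast h4
    linarith
  have hsp : ∃ M, Spans r E M := by
    refine spanning_of_cut r E hE (J := G × Fin k) (fun j => ed (s j.2) j.1)
      (fun j => ed (s' j.2) (j.1 * c j.2)) (fun j => w j.2) (fun j => hw0 j.2)
      ((Nat.card H : ℝ) / 2) (by linarith) ?_ ?_ ?_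
    · rintro ⟨x, i⟩ _
      have e1 : R x (x * c i) := by
        change x⁻¹ * (x * c i) ∈ A
        rw [inv_mul_cancel_left]; exact hcA i
      have e2 : R (x * s i) (x * c i * s' i) := by
        change (x * s i)⁻¹ * (x * c i * s' i) ∈ A
        have : (x * s i)⁻¹ * (x * c i * s' i) = (s i)⁻¹ * c i * s' i := by group
        rw [this]; exact hss i
      change (R _ _ ∧ R _ _) ∨ (R _ _ ∧ R _ _)
      rcases hed (s i) (hs i) x with ⟨a1, a2⟩ | ⟨a1, a2⟩ <;>
        rcases hed (s' i) (hs' i) (x * c i) with ⟨b1, b2⟩ | ⟨b1, b2⟩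
      · left; simp only [a2, b2]; rw [a1, b1]; exact ⟨e1, e2⟩
      · right; simp only [a2, b2]; rw [a1, b1]; exact ⟨e1, e2⟩
      · right; simp only [a2, b2]; rw [a1, b1]; exact ⟨e2, e1⟩
      · left; simp only [a2, b2]; rw [a1, b1]; exact ⟨e2, e1⟩
    · intro v
      rw [sum_weights w (fun j : G × Fin k => ed (s j.2) j.1 = v),
        sum_weights w (fun j : G × Fin k => ed (s' j.2) (j.1 * c j.2) = v)]
      have b1 : ∑ i, w i * (Nat.card {x : G // ed (s i) x = v} : ℝ) ≤
          ∑ i, w i * ((Nat.card H : ℝ) / 4) :=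
        Finset.sum_le_sum fun i _ => mul_le_mul_of_nonneg_left (hcard_ed _ (hs i) v) (hw0 i)
      have b2 : ∑ i, w i * (Nat.card {x : G // ed (s' i) (x * c i) = v} : ℝ) ≤
          ∑ i, w i * ((Nat.card H : ℝ) / 4) := by
        refine Finset.sum_le_sum fun i _ => mul_le_mul_of_nonneg_left ?_ (hw0 i)
        refine le_trans ?_ (hcard_ed _ (hs' i) v)
        have : Nat.card {x : G // ed (s' i) (x * c i) = v} ≤ Nat.card {x : G // ed (s' i) x = v} := by
          apply Nat.card_le_card_of_injective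
            (fun x : {x : G // ed (s' i) (x * c i) = v} =>
              (⟨x.1 * c i, x.2⟩ : {x : G // ed (s' i) x = v}))
          intro x y h
          exact Subtype.ext (mul_right_cancel (congrArg Subtype.val h))
        exact_mod_cast this
      rw [← Finset.sum_mul, hw1, one_mul] at b1 b2
      linarith
    · intro X hX hX1 hX2
      have hXH : ∀ x ∈ X, ∀ h ∈ H, x * h ∈ X := by
        intro x hx h hh
        refine hX x hx _ ?_
        rw [hr, hσc, inv_mul_cancel_left]
        exact hh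
      have hiff : ∀ t ∈ Z, ∀ x, ed t x ∈ X ↔ x ∈ X := by
        intro t ht x
        rcases hed t ht x with ⟨h, _⟩ | ⟨h, _⟩
        · rw [h]
        · rw [h]
          constructor
          · intro h'
            have := hXH _ h' t⁻¹ (H.inv_mem (hZH t ht))
            rwa [mul_inv_cancel_right] at this
          · intro h'
            exact hXH _ h' t (hZH t ht)
      have h1 := hcut X hXH hX1 hX2
      rw [sum_weights w (fun j : G × Fin k =>
        ed (s j.2) j.1 ∈ X ∧ ed (s' j.2) (j.1 * c j.2) ∉ X)]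
      have h2 : ∀ i, (Nat.card {x : G // x ∈ X ∧ x * c i ∉ X} : ℝ) =
          (Nat.card {x : G // ed (s i) x ∈ X ∧ ed (s' i) (x * c i) ∉ X} : ℝ) := by
        intro i
        congr 1
        apply Nat.card_congr
        apply Equiv.subtypeEquivRight
        intro x
        rw [hiff _ (hs i), hiff _ (hs' i)]
      calc 2 * ((Nat.card H : ℝ) / 2) = Nat.card H := by ring
        _ ≤ _ := h1
        _ = _ := Finset.sum_congr rfl fun i _ => by rw [h2 i]
  obtain ⟨M, hM⟩ := hsp
  obtain ⟨ρ, h1, h2⟩ := merge_all' Pool.Agent.N319.CayA.merge R hR σ hσA hlong r hr M hM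
  exact ⟨ρ, fun x hx => absurd (Set.mem_univ x) hx, fun x _ => Set.mem_univ _,
    fun x _ => h1 x, fun x _ y _ => h2 x y⟩

end Pool.Agent.N81.Cay
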