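import Pool.Agent.N81.Cay.Prism

/-!
Doubling a cycle of a subgroup of even order along an involution which normalises it.
-/

namespace Pool.Agent.N81.Cay

open Pool.Agent.R759.HC

universe u

variable {G : Type u} [Group G]

/-- the subgroup `H ∪ H z` -/
def dbl (H : Subgroup G) (z : G) (hz2 : z * z = 1) (hconj : ∀ x ∈ H, z * x * z ∈ H) :
    Subgroup G where
  carrier := {x | x ∈ H ∨ x * z ∈ H}
  one_mem' := Or.inl H.one_mem
  mul_mem' := by
    rintro x y (hx | hx) (hy | hy)
    · exact Or.inl (H.mul_mem hx hy)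
    · right
      rw [mul_assoc]; exact H.mul_mem hx hy
    · right
      have h1 := H.mul_mem hx (hconj y hy)
      have h2 : x * z * (z * y * z) = x * y * z := by
        calc x * z * (z * y * z) = x * (z * z) * y * z := by group
          _ = x * y * z := by rw [hz2, mul_one]
      change x * y * z ∈ H
      rwa [h2] at h1
    · left
      have h1 := H.mul_mem hx (hconj _ hy)
      have h2 : x * z * (z * (y * z) * z) = x * y := by
        calc x * z * (z * (y * z) * z) = x * (z * z) * y * (z * z) := by group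
          _ = x * y := by rw [hz2, mul_one, mul_one]
      rwa [h2] at h1
  inv_mem' := by
    rintro x (hx | hx)
    · exact Or.inl (H.inv_mem hx)
    · right
      have h1 := hconj _ (H.inv_mem hx)
      have h2 : z * (x * z)⁻¹ * z = x⁻¹ * z := by
        rw [mul_inv_rev, mul_inv_cancel_left]
      change x⁻¹ * z ∈ H
      rwa [h2] at h1

theorem mem_dbl {H : Subgroup G} {z : G} {hz2 : z * z = 1} {hconj : ∀ x ∈ H, z * x * z ∈ H}
    {x : G} : x ∈ dbl H z hz2 hconj ↔ x ∈ H ∨ x * z ∈ H := Iff.rfl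

variable [Finite G]

theorem cyc_dbl {A : Set G} {z : G} (hz : z ∈ A) (hz2 : z * z = 1) (H : Subgroup G)
    (hzH : z ∉ H) (hconj : ∀ x ∈ H, z * x * z ∈ H) (hev : Even (Nat.card H))
    (τ : Equiv.Perm G) (hτ : CycOn A (H : Set G) τ)
    (hτz : ∀ x ∈ H, z * (x⁻¹ * τ x) * z ∈ A) :
    ∃ τ' : Equiv.Perm G, CycOn A (dbl H z hz2 hconj : Set G) τ' ∧
      ∀ x ∈ dbl H z hz2 hconj, Edge τ' x (x * z) := by
  classical
  obtain ⟨χ, hχ⟩ := Pool.Agent.N455.CayC.exists_chi hτ hev
  have z2 : ∀ t : ZMod 2, t + 1 = 0 ↔ t ≠ 0 := by decide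
  have hχ0 : ∀ x ∈ H, (χ (τ x) = 0 ↔ χ x ≠ 0) := by
    intro x hx
    rw [hχ x hx]; exact z2 _
  have hmaps : ∀ x ∈ H, τ x ∈ H := hτ.maps
  have hmaps' : ∀ x ∈ H, τ⁻¹ x ∈ H := fun x hx => Pool.Agent.N455.CayC.inv_maps hτ hx
  have hzz : ∀ x : G, x * z * z = x := fun x => by rw [mul_assoc, hz2, mul_one]
  have hexcl : ∀ x, x ∈ H → x * z ∉ H := by
    intro x hx h
    apply hzH
    have h1 := H.mul_mem (H.inv_mem hx) h
    rwa [inv_mul_cancel_left] at h1
  have hexcl' : ∀ x, x * z ∈ H → x ∉ H := fun x hx h => hexcl x h hx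
  let f : G → G := fun y => if y ∈ H then (if χ y = 0 then y * z else τ y)
    else if y * z ∈ H then (if χ (y * z) = 0 then τ (y * z) * z else y * z) else y
  let g : G → G := fun y => if y ∈ H then (if χ y = 0 then τ⁻¹ y else y * z)
    else if y * z ∈ H then (if χ (y * z) = 0 then y * z else τ⁻¹ (y * z) * z) else y
  have f1 : ∀ x ∈ H, χ x = 0 → f x = x * z := fun x hx h => by simp only [f, if_pos hx, if_pos h]
  have f2 : ∀ x ∈ H, χ x ≠ 0 → f x = τ x := fun x hx h => by simp only [f, if_pos hx, if_neg h]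
  have f3 : ∀ x ∈ H, χ x = 0 → f (x * z) = τ x * z := fun x hx h => by
    simp only [f, if_neg (hexcl x hx), hzz, if_pos hx, if_pos h]
  have f4 : ∀ x ∈ H, χ x ≠ 0 → f (x * z) = x := fun x hx h => by
    simp only [f, if_neg (hexcl x hx), hzz, if_pos hx, if_neg h]
  have f5 : ∀ x, x ∉ H → x * z ∉ H → f x = x := fun x h1 h2 => by
    simp only [f, if_neg h1, if_neg h2]
  have g1 : ∀ x ∈ H, χ x = 0 → g x = τ⁻¹ x := fun x hx h => by simp only [g, if_pos hx, if_pos h]
  have g2 : ∀ x ∈ H, χ x ≠ 0 → g x = x * z := fun x hx h => by simp only [g, if_pos hx, if_neg h]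
  have g3 : ∀ x ∈ H, χ x = 0 → g (x * z) = x := fun x hx h => by
    simp only [g, if_neg (hexcl x hx), hzz, if_pos hx, if_pos h]
  have g4 : ∀ x ∈ H, χ x ≠ 0 → g (x * z) = τ⁻¹ x * z := fun x hx h => by
    simp only [g, if_neg (hexcl x hx), hzz, if_pos hx, if_neg h]
  have g5 : ∀ x, x ∉ H → x * z ∉ H → g x = x := fun x h1 h2 => by
    simp only [g, if_neg h1, if_neg h2]
  have hinv : ∀ x ∈ H, (χ (τ⁻¹ x) ≠ 0 ↔ χ x = 0) := by
    intro x hx
    have := hχ0 (τ⁻¹ x) (hmaps' x hx)
    rw [pinv1] at this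
    exact this.symm
  let τ' : Equiv.Perm G :=
    { toFun := f
      invFun := g
      left_inv := by
        intro x
        by_cases h1 : x ∈ H
        · by_cases h2 : χ x = 0
          · rw [f1 x h1 h2, g3 x h1 h2]
          · rw [f2 x h1 h2, g1 _ (hmaps x h1) ((hχ0 x h1).2 h2), pinv2]
        · by_cases h3 : x * z ∈ H
          · have e : x = (x * z) * z := (hzz x).symm
            by_cases h2 : χ (x * z) = 0
            · have h4 : χ (τ (x * z)) ≠ 0 := fun h => ((hχ0 _ h3).1 h) h2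
              rw [e, f3 _ h3 h2, g4 _ (hmaps _ h3) h4, pinv2]
            · rw [e, f4 _ h3 h2, g2 _ h3 h2]
          · rw [f5 x h1 h3, g5 x h1 h3]
      right_inv := by
        intro x
        by_cases h1 : x ∈ H
        · by_cases h2 : χ x = 0
          · rw [g1 x h1 h2, f2 _ (hmaps' x h1) ((hinv x h1).2 h2), pinv1]
          · rw [g2 x h1 h2, f4 x h1 h2]
        · by_cases h3 : x * z ∈ H
          · have e : x = (x * z) * z := (hzz x).symm
            by_cases h2 : χ (x * z) = 0
            · rw [e, g3 _ h3 h2, f1 _ h3 h2]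
            · have h4 : χ (τ⁻¹ (x * z)) = 0 := by
                by_contra h
                exact h2 ((hinv _ h3).1 h)
              rw [e, g4 _ h3 h2, f3 _ (hmaps' _ h3) h4, pinv1]
          · rw [g5 x h1 h3, f5 x h1 h3] }
  have t : ∀ x, τ' x = f x := fun x => rfl
  have hsc : ∀ x, τ'.SameCycle x (f x) := by
    intro x
    rw [← t]
    exact Equiv.Perm.sameCycle_apply_right.2 (Equiv.Perm.SameCycle.refl _ _)
  have s1 : ∀ x ∈ H, τ'.SameCycle x (x * z) := by
    intro x hx
    by_cases h : χ x = 0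
    · have := hsc x
      rwa [f1 x hx h] at this
    · have := hsc (x * z)
      rw [f4 x hx h] at this
      exact this.symm
  have s2 : ∀ x ∈ H, τ'.SameCycle x (τ x) := by
    intro x hx
    by_cases h : χ x = 0
    · have h1 := hsc (x * z)
      rw [f3 x hx h] at h1
      exact ((s1 x hx).trans h1).trans (s1 _ (hmaps x hx)).symm
    · have := hsc x
      rwa [f2 x hx h] at this
  have s3 : ∀ n : ℕ, (τ ^ n) 1 ∈ H ∧ τ'.SameCycle 1 ((τ ^ n) 1) := by
    intro n
    induction n with
    | zero => exact ⟨H.one_mem, Equiv.Perm.SameCycle.refl _ _⟩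
    | succ n ih =>
      rw [pow_succ', Equiv.Perm.mul_apply]
      exact ⟨hmaps _ ih.1, ih.2.trans (s2 _ ih.1)⟩
  have s4 : ∀ x ∈ H, τ'.SameCycle 1 x := by
    intro x hx
    obtain ⟨n, hn⟩ := (hτ.cyc 1 H.one_mem x hx).exists_nat_pow_eq
    rw [← hn]; exact (s3 n).2
  have s5 : ∀ x ∈ dbl H z hz2 hconj, τ'.SameCycle 1 x := by
    rintro x (hx | hx)
    · exact s4 x hx
    · have h1 := s1 _ hx
      rw [hzz] at h1
      exact (s4 _ hx).trans h1
  have hzi : z⁻¹ = z := inv_eq_of_mul_eq_one_left hz2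
  refine ⟨τ', ⟨?_, ?_, ?_, ?_⟩, ?_⟩
  · intro x hx
    have hx' : ¬ (x ∈ H ∨ x * z ∈ H) := hx
    rw [not_or] at hx'
    exact f5 x hx'.1 hx'.2
  · rintro x (hx | hx)
    · change f x ∈ H ∨ f x * z ∈ H
      by_cases h : χ x = 0
      · rw [f1 x hx h]; right; rw [hzz]; exact hx
      · rw [f2 x hx h]; left; exact hmaps x hx
    · change f x ∈ H ∨ f x * z ∈ H
      have e : x = (x * z) * z := (hzz x).symm
      by_cases h : χ (x * z) = 0
      · rw [e, f3 _ hx h]; right; rw [hzz]; exact hmaps _ hx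
      · rw [e, f4 _ hx h]; left; exact hx
  · rintro x (hx | hx)
    · change x⁻¹ * f x ∈ A
      by_cases h : χ x = 0
      · rw [f1 x hx h, inv_mul_cancel_left]; exact hz
      · rw [f2 x hx h]; exact hτ.step x hx
    · change x⁻¹ * f x ∈ A
      by_cases h : χ (x * z) = 0
      · have h1 := hτz _ hx
        have e : x⁻¹ * f x = z * ((x * z)⁻¹ * τ (x * z)) * z := by
          have e1 : f x = τ (x * z) * z := by
            have := f3 _ hx h
            rwa [hzz] at this
          rw [e1, mul_inv_rev]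
          have : z * (z⁻¹ * x⁻¹ * τ (x * z)) * z = x⁻¹ * (τ (x * z) * z) := by group
          rw [this]
        rw [e]; exact h1
      · have e1 : f x = x * z := by
          have := f4 _ hx h
          rwa [hzz] at this
        rw [e1, inv_mul_cancel_left]; exact hz
  · intro x hx y hy
    exact (s5 x hx).symm.trans (s5 y hy)
  · rintro x (hx | hx)
    · by_cases h : χ x = 0
      · exact Or.inl (f1 x hx h)
      · exact Or.inr (f4 x hx h)
    · have e : x = (x * z) * z := (hzz x).symm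
      by_cases h : χ (x * z) = 0
      · right
        have := f1 _ hx h
        rwa [hzz] at this
      · left
        have := f4 _ hx h
        rwa [hzz] at this

theorem normalising (A : Set G) (hA : ∀ x ∈ A, x⁻¹ ∈ A) (z : G) (hz : z ∈ A) (hz2 : z * z = 1)
    (H : Subgroup G) (hzH : z ∉ H) (hconj : ∀ x ∈ H, z * x * z ∈ H) (hev : Even (Nat.card H))
    (h4 : 4 ≤ Nat.card H) (τ : Equiv.Perm G) (hτ : CycOn (Sq A {z}) (H : Set G) τ)
    (hgen : Subgroup.closure (Sq A {z}) = ⊤) : ∃ σ : Equiv.Perm G, CycOn A Set.univ σ := by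
  have hzi : z⁻¹ = z := inv_eq_of_mul_eq_one_left hz2
  have hτA : CycOn A (H : Set G) τ := ⟨hτ.fix, hτ.maps, fun x hx => (hτ.step x hx).1, hτ.cyc⟩
  obtain ⟨τ', h1, h2⟩ := cyc_dbl hz hz2 H hzH hconj hev τ hτA (by
    intro x hx
    obtain ⟨_, s, hs, s', hs', h⟩ := hτ.step x hx
    rw [Set.mem_singleton_iff] at hs hs'
    rw [hs, hs', hzi] at h
    exact h)
  refine lift A hA (dbl H z hz2 hconj) τ' h1 {z} ?_ (Sq A {z}) (fun c hc => hc) (Or.inl ?_) ?_
  · rintro s hs x hx
    rw [Set.mem_singleton_iff] at hs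
    subst hs
    exact h2 x hx
  · have hle : H ≤ dbl H z hz2 hconj := fun x hx => Or.inl hx
    have hzd : z ∈ dbl H z hz2 hconj := by
      right
      rw [hz2]; exact H.one_mem
    have := two_mul_card hle hzd hzH
    omega
  · rw [eq_top_iff, ← hgen]
    exact Subgroup.closure_mono Set.subset_union_right

end Pool.Agent.N81.Cay
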