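import Pool.Agent.N81.Cay.Main

/-!
Special cases of the lifting theorem.
-/

namespace Pool.Agent.N81.Cay

open Pool.Agent.R759.HC

universe u

variable {G : Type u} [Group G]

/-- the elements of `A` which carry squares along `Z` -/
def Sq (A Z : Set G) : Set G := {c | c ∈ A ∧ ∃ s ∈ Z, ∃ s' ∈ Z, s⁻¹ * c * s' ∈ A}

theorem Sq_self {A Z : Set G} {a : G} (ha : a ∈ A) (hz : a ∈ Z) : a ∈ Sq A Z :=
  ⟨ha, a, hz, a, hz, by rw [inv_mul_cancel, one_mul]; exact ha⟩

variable [Finite G]

theorem cyclic (A : Set G) (hA : ∀ x ∈ A, x⁻¹ ∈ A) (a : G) (ha : a ∈ A) (h4 : 4 ≤ orderOf a)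
    (hgen : Subgroup.closure (Sq A {a, a⁻¹}) = ⊤) : ∃ σ : Equiv.Perm G, CycOn A Set.univ σ := by
  obtain ⟨τ, hτ, hT⟩ := cyc_zpowers ha
  refine lift A hA (Subgroup.zpowers a) τ hτ {a, a⁻¹} ?_ (Sq A {a, a⁻¹}) (fun c hc => hc) ?_ ?_
  · intro z hz x hx
    refine hT x z ?_ hz
    rw [QuotientGroup.eq]
    simpa using hx
  · right
    rw [Nat.card_zpowers]
    refine ⟨h4, ?_⟩
    have h2 : a * a ≠ 1 := by
      intro h
      have : orderOf a ∣ 2 := by
        rw [orderOf_dvd_iff_pow_eq_one, pow_two]; exact h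
      have := Nat.le_of_dvd (by norm_num) this
      omega
    rintro z (rfl | hz)
    · exact h2
    · rw [Set.mem_singleton_iff] at hz
      subst hz
      intro h
      apply h2
      have := congrArg (fun x => x⁻¹) h
      simpa using this
  · rw [eq_top_iff, ← hgen]
    exact Subgroup.closure_mono Set.subset_union_right

theorem two_mul_card {H Q : Subgroup G} (hQH : Q ≤ H) {a : G} (haH : a ∈ H) (haQ : a ∉ Q) :
    2 * Nat.card Q ≤ Nat.card H := by
  obtain ⟨k, hk⟩ := Subgroup.card_dvd_of_le hQH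
  have hpos : 0 < Nat.card H := Nat.card_pos
  have h1 : k ≠ 0 := by rintro rfl; omega
  have h2 : k ≠ 1 := by
    rintro rfl
    rw [mul_one] at hk
    have := Subgroup.eq_of_le_of_card_ge hQH hk.le
    exact haQ (this ▸ haH)
  have h3 : 2 ≤ k := by omega
  rw [hk, mul_comm]
  exact Nat.mul_le_mul_left _ h3

theorem dihedral (A : Set G) (hA : ∀ x ∈ A, x⁻¹ ∈ A) (a b : G) (ha : a ∈ A) (hb : b ∈ A)
    (ha2 : a * a = 1) (hb2 : b * b = 1) (h4 : 4 ≤ orderOf (a * b))
    (hgen : Subgroup.closure (Sq A {a, b}) = ⊤) : ∃ σ : Equiv.Perm G, CycOn A Set.univ σ := by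
  have hle : ∀ x : G, x * x = 1 → orderOf x ≤ 2 := by
    intro x h
    exact Nat.le_of_dvd (by norm_num) (by rw [orderOf_dvd_iff_pow_eq_one, pow_two]; exact h)
  have ha1 : a ≠ 1 := by
    rintro rfl
    rw [one_mul] at h4
    have := hle b hb2
    omega
  have hb1 : b ≠ 1 := by
    rintro rfl
    rw [mul_one] at h4
    have := hle a ha2
    omega
  have hab : a ≠ b := by
    rintro rfl
    rw [ha2, orderOf_one] at h4
    omega
  obtain ⟨τ, hτ, hT⟩ := cyc_dihedral ha hb ha1 hb1 hab ha2 hb2
  have haH : a ∈ Subgroup.closure ({a, b} : Set G) := Subgroup.subset_closure (by simp)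
  have hbH : b ∈ Subgroup.closure ({a, b} : Set G) := Subgroup.subset_closure (by simp)
  have hQH : Subgroup.zpowers (a * b) ≤ Subgroup.closure ({a, b} : Set G) := by
    rw [Subgroup.zpowers_le]; exact Subgroup.mul_mem _ haH hbH
  have haQ : a ∉ Subgroup.zpowers (a * b) := by
    intro haZ
    have hbZ : b ∈ Subgroup.zpowers (a * b) := by
      have h1 := Subgroup.mul_mem _ (Subgroup.inv_mem _ haZ) (Subgroup.mem_zpowers (a * b))
      rwa [inv_mul_cancel_left] at h1
    obtain ⟨i, hi⟩ := Subgroup.mem_zpowers_iff.1 haZ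
    obtain ⟨j, hj⟩ := Subgroup.mem_zpowers_iff.1 hbZ
    have hcomm : a * b = b * a := by
      have : (a * b) ^ i * (a * b) ^ j = (a * b) ^ j * (a * b) ^ i := by
        rw [← zpow_add, ← zpow_add, add_comm]
      rwa [hi, hj] at this
    have hr2 : (a * b) * (a * b) = 1 := by
      calc a * b * (a * b) = a * (b * a) * b := by group
        _ = a * (a * b) * b := by rw [← hcomm]
        _ = (a * a) * (b * b) := by group
        _ = 1 := by rw [ha2, hb2, mul_one]
    have := hle _ hr2
    omega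
  refine lift A hA (Subgroup.closure {a, b}) τ hτ {a, b} ?_ (Sq A {a, b}) (fun c hc => hc) ?_ ?_
  · intro z hz x hx
    refine hT x z ?_ hz
    rw [QuotientGroup.eq]
    simpa using hx
  · left
    have h1 := two_mul_card hQH haH haQ
    rw [Nat.card_zpowers] at h1
    omega
  · rw [eq_top_iff, ← hgen]
    exact Subgroup.closure_mono Set.subset_union_right

/-- the cycle on `⟨z, a⟩` which alternates between `z` and `a` -/
theorem cyc_alt {A : Set G} {z a : G} (hz : z ∈ A) (ha : a ∈ A) (hz2 : z * z = 1)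
    (haz : a * z ∈ Subgroup.zpowers (z * a)) (hzQ : z ∉ Subgroup.zpowers (z * a)) :
    ∃ (H : Subgroup G) (τ : Equiv.Perm G), z ∈ H ∧ a ∈ H ∧ CycOn A (H : Set G) τ ∧
      (∀ x ∈ H, Edge τ x (x * z)) ∧ 2 * orderOf (z * a) ≤ Nat.card H := by
  classical
  set Q := Subgroup.zpowers (z * a) with hQ
  have hzaQ : z * a ∈ Q := Subgroup.mem_zpowers _
  -- `z` normalises `Q`
  have hconj : ∀ x ∈ Q, z * x * z ∈ Q := by
    intro x hx
    obtain ⟨k, rfl⟩ := Subgroup.mem_zpowers_iff.1 hx
    have hzi : z⁻¹ = z := inv_eq_of_mul_eq_one_left hz2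
    have h1 : z * (z * a) ^ k * z = (a * z) ^ k := by
      have h2 : z * (z * a) * z⁻¹ = a * z := by
        rw [hzi]
        calc z * (z * a) * z = (z * z) * (a * z) := by group
          _ = a * z := by rw [hz2, one_mul]
      rw [← h2, conj_zpow, hzi]
    rw [h1]
    exact Subgroup.zpow_mem _ haz k
  have hzz : ∀ x : G, x * z * z = x := fun x => by rw [mul_assoc, hz2, mul_one]
  let H : Subgroup G :=
    { carrier := {x | x ∈ Q ∨ x * z ∈ Q}
      one_mem' := Or.inl Q.one_mem
      mul_mem' := by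
        rintro x y (hx | hx) (hy | hy)
        · exact Or.inl (Q.mul_mem hx hy)
        · right
          rw [mul_assoc]; exact Q.mul_mem hx hy
        · right
          have h1 := Q.mul_mem hx (hconj y hy)
          have h2 : x * z * (z * y * z) = x * y * z := by
            calc x * z * (z * y * z) = x * (z * z) * y * z := by group
              _ = x * y * z := by rw [hz2, mul_one]
          change x * y * z ∈ Q
          rwa [h2] at h1
        · left
          have h1 := Q.mul_mem hx (hconj _ hy)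
          have h2 : x * z * (z * (y * z) * z) = x * y := by
            calc x * z * (z * (y * z) * z) = x * (z * z) * y * (z * z) := by group
              _ = x * y := by rw [hz2, mul_one, mul_one]
          rwa [h2] at h1
      inv_mem' := by
        rintro x (hx | hx)
        · exact Or.inl (Q.inv_mem hx)
        · right
          have h1 := hconj _ (Q.inv_mem hx)
          have h2 : z * (x * z)⁻¹ * z = x⁻¹ * z := by
            rw [mul_inv_rev, mul_inv_cancel_left]
          change x⁻¹ * z ∈ Q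
          rwa [h2] at h1 }
  have hH : ∀ x, x ∈ H ↔ x ∈ Q ∨ x * z ∈ Q := fun x => Iff.rfl
  have hexcl : ∀ x, x ∈ Q → x * z ∉ Q := by
    intro x hx h
    apply hzQ
    have h1 := Q.mul_mem (Q.inv_mem hx) h
    rwa [inv_mul_cancel_left] at h1
  have hza : ∀ x, x * z ∈ Q → x * a ∈ Q := by
    intro x hx
    have h1 := Q.mul_mem hx hzaQ
    have h2 : x * z * (z * a) = x * a := by
      calc x * z * (z * a) = x * (z * z) * a := by group
        _ = x * a := by rw [hz2, mul_one]
    rwa [h2] at h1
  have hza' : ∀ x, x ∈ Q → x * a⁻¹ * z ∈ Q := by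
    intro x hx
    have h1 := Q.mul_mem hx (Q.inv_mem hzaQ)
    have hzi : z⁻¹ = z := inv_eq_of_mul_eq_one_left hz2
    rw [mul_inv_rev, hzi, ← mul_assoc] at h1
    exact h1
  let τ : Equiv.Perm G :=
    { toFun := fun x => if x ∈ Q then x * z else if x * z ∈ Q then x * a else x
      invFun := fun x => if x ∈ Q then x * a⁻¹ else if x * z ∈ Q then x * z else x
      left_inv := by
        intro x
        by_cases h1 : x ∈ Q
        · have h2 := hexcl x h1
          simp only [if_pos h1, if_neg h2, hzz]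
        · by_cases h2 : x * z ∈ Q
          · simp only [if_neg h1, if_pos h2, if_pos (hza x h2), mul_inv_cancel_right]
          · simp only [if_neg h1, if_neg h2]
      right_inv := by
        intro x
        by_cases h1 : x ∈ Q
        · have h2 := hza' x h1
          have h3 : x * a⁻¹ ∉ Q := fun h => hexcl _ h h2
          simp only [if_pos h1, if_neg h3, if_pos h2, inv_mul_cancel_right]
        · by_cases h2 : x * z ∈ Q
          · simp only [if_neg h1, if_pos h2, hzz]
          · simp only [if_neg h1, if_neg h2] }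
  have t1 : ∀ x, x ∈ Q → τ x = x * z := fun x hx => if_pos hx
  have t2 : ∀ x, x * z ∈ Q → τ x = x * a := by
    intro x hx
    have h1 : x ∉ Q := fun h => hexcl x h hx
    change (if x ∈ Q then x * z else if x * z ∈ Q then x * a else x) = _
    rw [if_neg h1, if_pos hx]
  have t3 : ∀ x, x ∉ H → τ x = x := by
    intro x hx
    rw [hH, not_or] at hx
    change (if x ∈ Q then x * z else if x * z ∈ Q then x * a else x) = _
    rw [if_neg hx.1, if_neg hx.2]
  have hQH : Q ≤ H := fun x hx => Or.inl hx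
  have hzH : z ∈ H := by
    rw [hH]; right; rw [hz2]; exact Q.one_mem
  have haH : a ∈ H := Or.inr haz
  -- the orbit
  have step2 : ∀ x ∈ Q, τ.SameCycle x (x * (z * a)) := by
    intro x hx
    have h1 : τ (τ x) = x * (z * a) := by
      rw [t1 x hx, t2 (x * z) (by rw [hzz]; exact hx), mul_assoc]
    rw [← h1]
    exact Equiv.Perm.sameCycle_apply_right.2
      (Equiv.Perm.sameCycle_apply_right.2 (Equiv.Perm.SameCycle.refl _ _))
  have hpow : ∀ n : ℕ, τ.SameCycle 1 ((z * a) ^ n) := by
    intro n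
    induction n with
    | zero => rw [pow_zero]
    | succ n ih =>
      rw [pow_succ]
      exact ih.trans (step2 _ (Q.pow_mem hzaQ n))
  have hQc : ∀ x ∈ Q, τ.SameCycle 1 x := by
    intro x hx
    obtain ⟨n, rfl⟩ := (mem_powers_iff_mem_zpowers).2 hx
    exact hpow n
  have hHc : ∀ x ∈ H, τ.SameCycle 1 x := by
    rintro x (hx | hx)
    · exact hQc x hx
    · have h1 := hQc _ hx
      have h2 : τ (x * z) = x := by rw [t1 _ hx, hzz]
      have h3 : τ.SameCycle (x * z) (τ (x * z)) :=
        Equiv.Perm.sameCycle_apply_right.2 (Equiv.Perm.SameCycle.refl _ _)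
      rw [h2] at h3
      exact h1.trans h3
  refine ⟨H, τ, hzH, haH, ⟨fun x hx => t3 x hx, ?_, ?_, ?_⟩, ?_, ?_⟩
  · rintro x (hx | hx)
    · rw [t1 x hx]; exact H.mul_mem (hQH hx) hzH
    · rw [t2 x hx]; exact hQH (hza x hx)
  · rintro x (hx | hx)
    · rw [t1 x hx, inv_mul_cancel_left]; exact hz
    · rw [t2 x hx, inv_mul_cancel_left]; exact ha
  · intro x hx y hy
    exact (hHc x hx).symm.trans (hHc y hy)
  · rintro x (hx | hx)
    · exact Or.inl (t1 x hx)
    · right
      rw [t1 _ hx, hzz]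
  · have h1 := two_mul_card hQH hzH hzQ
    rwa [Nat.card_zpowers] at h1

theorem alternating (A : Set G) (hA : ∀ x ∈ A, x⁻¹ ∈ A) (z a : G) (hz : z ∈ A) (ha : a ∈ A)
    (hz2 : z * z = 1) (haz : a * z ∈ Subgroup.zpowers (z * a))
    (hzQ : z ∉ Subgroup.zpowers (z * a)) (h4 : 4 ≤ orderOf (z * a))
    (hgen : Subgroup.closure ({a} ∪ Sq A {z}) = ⊤) : ∃ σ : Equiv.Perm G, CycOn A Set.univ σ := by
  obtain ⟨H, τ, hzH, haH, hτ, hE, hcard⟩ := cyc_alt hz ha hz2 haz hzQ
  refine lift A hA H τ hτ {z} ?_ (Sq A {z}) (fun c hc => hc) (Or.inl (by omega)) ?_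
  · rintro s hs x hx
    rw [Set.mem_singleton_iff] at hs
    subst hs
    exact hE x hx
  · rw [eq_top_iff, ← hgen]
    apply Subgroup.closure_mono
    apply Set.union_subset_union_left
    rintro x hx
    rw [Set.mem_singleton_iff] at hx
    subst hx
    exact haH

end Pool.Agent.N81.Cay
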