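import Pool.Agent.N81.Cay.Pairs

/-!
Hamiltonian cycles in prisms over Cayley graphs.
-/

namespace Pool.Agent.N81.Cay

open Pool.Agent.R759.HC

universe u

variable {G : Type u} [Group G]

/-- `A × {1}` together with the central involution `(1, z)` of `G × C₂` -/
def prismSet (A : Set G) : Set (G × Multiplicative (ZMod 2)) :=
  {x | (x.1 ∈ A ∧ x.2 = 1) ∨ x = (1, Multiplicative.ofAdd 1)}

theorem z0_sq : (Multiplicative.ofAdd (1 : ZMod 2)) * Multiplicative.ofAdd (1 : ZMod 2) = 1 := by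
  decide

theorem prismSet_symm {A : Set G} (hA : ∀ x ∈ A, x⁻¹ ∈ A) : ∀ x ∈ prismSet A, x⁻¹ ∈ prismSet A := by
  rintro ⟨x, t⟩ (⟨h1, h2⟩ | h)
  · left
    exact ⟨hA _ h1, by
      change t⁻¹ = 1
      rw [show t = 1 from h2, inv_one]⟩
  · right
    rw [h]
    apply Prod.ext
    · exact inv_one
    · change (Multiplicative.ofAdd (1 : ZMod 2))⁻¹ = _
      exact inv_eq_of_mul_eq_one_left z0_sq

variable [Finite G]

theorem prism_lift (A : Set G) (hA : ∀ x ∈ A, x⁻¹ ∈ A) (hgen : Subgroup.closure A = ⊤)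
    (H : Subgroup G) (τ : Equiv.Perm G) (hτ : CycOn A (H : Set G) τ) (hev : Even (Nat.card H))
    (h4 : 4 ≤ Nat.card H) :
    ∃ σ : Equiv.Perm (G × Multiplicative (ZMod 2)), CycOn (prismSet A) Set.univ σ := by
  obtain ⟨τ', h1, h2⟩ := Pool.Agent.N455.CayC.prism A hA H τ hτ hev (prismSet A)
    (fun x hx => Or.inl ⟨hx, rfl⟩) (Or.inr rfl)
  have hc : ∀ x ∈ A, ((x, 1) : G × Multiplicative (ZMod 2)) ∈
      Sq (prismSet A) {((1 : G), Multiplicative.ofAdd (1 : ZMod 2))} := by
    intro x hx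
    refine ⟨Or.inl ⟨hx, rfl⟩, _, rfl, _, rfl, ?_⟩
    have : ((1 : G), Multiplicative.ofAdd (1 : ZMod 2))⁻¹ * (x, 1) *
        ((1 : G), Multiplicative.ofAdd (1 : ZMod 2)) = (x, 1) := by
      apply Prod.ext
      · change (1 : G)⁻¹ * x * 1 = x
        rw [inv_one, one_mul, mul_one]
      · change (Multiplicative.ofAdd (1 : ZMod 2))⁻¹ * 1 * Multiplicative.ofAdd (1 : ZMod 2) = 1
        rw [mul_one, inv_mul_cancel]
    rw [this]
    exact Or.inl ⟨hx, rfl⟩
  refine lift (prismSet A) (prismSet_symm hA) (H.prod ⊤) τ' h1 _ ?_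
    (Sq (prismSet A) {((1 : G), Multiplicative.ofAdd (1 : ZMod 2))}) (fun c hc => hc) (Or.inl ?_) ?_
  · rintro s hs x hx
    rw [Set.mem_singleton_iff] at hs
    subst hs
    exact h2 x hx
  · have e : Nat.card (H.prod (⊤ : Subgroup (Multiplicative (ZMod 2)))) = Nat.card H * 2 := by
      rw [Nat.card_congr (Subgroup.prodEquiv H (⊤ : Subgroup (Multiplicative (ZMod 2)))).toEquiv,
        Nat.card_prod]
      congr 1
      rw [Subgroup.card_top]
      simp [Nat.card_eq_fintype_card]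
    rw [e]; omega
  · rw [eq_top_iff]
    rintro ⟨g, t⟩ -
    set K := Subgroup.closure (((H.prod ⊤ : Subgroup (G × Multiplicative (ZMod 2))) : Set _) ∪
      Sq (prismSet A) {((1 : G), Multiplicative.ofAdd (1 : ZMod 2))}) with hK
    have k1 : ((g, 1) : G × Multiplicative (ZMod 2)) ∈ K := by
      have hg : g ∈ Subgroup.closure A := by rw [hgen]; exact Subgroup.mem_top g
      have hmap : Subgroup.closure A ≤ K.comap (MonoidHom.inl G (Multiplicative (ZMod 2))) := by
        rw [Subgroup.closure_le]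
        intro x hx
        exact Subgroup.subset_closure (Or.inr (hc x hx))
      exact hmap hg
    have k2 : ((1, t) : G × Multiplicative (ZMod 2)) ∈ K := by
      apply Subgroup.subset_closure
      left
      exact Subgroup.mem_prod.2 ⟨H.one_mem, Subgroup.mem_top _⟩
    have k3 := K.mul_mem k1 k2
    have e : ((g, 1) : G × Multiplicative (ZMod 2)) * (1, t) = (g, t) := by
      apply Prod.ext
      · exact mul_one g
      · exact one_mul t
    rwa [e] at k3

theorem prism_even (A : Set G) (hA : ∀ x ∈ A, x⁻¹ ∈ A) (hgen : Subgroup.closure A = ⊤)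
    (a : G) (ha : a ∈ A) (hev : Even (orderOf a)) (h4 : 4 ≤ orderOf a) :
    ∃ σ : Equiv.Perm (G × Multiplicative (ZMod 2)), CycOn (prismSet A) Set.univ σ := by
  obtain ⟨τ, hτ, -⟩ := cyc_zpowers ha
  refine prism_lift A hA hgen _ τ hτ ?_ ?_
  · rw [Nat.card_zpowers]; exact hev
  · rw [Nat.card_zpowers]; exact h4

theorem prism_invol (A : Set G) (hA : ∀ x ∈ A, x⁻¹ ∈ A) (hgen : Subgroup.closure A = ⊤)
    (a b : G) (ha : a ∈ A) (hb : b ∈ A) (hab : a ≠ b) (ha2 : orderOf a = 2) (hb2 : orderOf b = 2) :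
    ∃ σ : Equiv.Perm (G × Multiplicative (ZMod 2)), CycOn (prismSet A) Set.univ σ := by
  have ha1 : a ≠ 1 := by rintro rfl; rw [orderOf_one] at ha2; omega
  have hb1 : b ≠ 1 := by rintro rfl; rw [orderOf_one] at hb2; omega
  have haa : a * a = 1 := by rw [← pow_two, ← ha2]; exact pow_orderOf_eq_one a
  have hbb : b * b = 1 := by rw [← pow_two, ← hb2]; exact pow_orderOf_eq_one b
  obtain ⟨τ, hτ, -⟩ := cyc_dihedral ha hb ha1 hb1 hab haa hbb
  have h3 := CycPair.three (G := G) (a := a) (b := b) ⟨ha1, hb1, hab, Or.inr ⟨haa, hbb⟩⟩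
  have haH : a ∈ Subgroup.closure ({a, b} : Set G) := Subgroup.subset_closure (by simp)
  have hev : Even (Nat.card (Subgroup.closure ({a, b} : Set G))) := by
    rw [even_iff_two_dvd, ← ha2]
    have := orderOf_dvd_natCard (⟨a, haH⟩ : Subgroup.closure ({a, b} : Set G))
    rwa [Subgroup.orderOf_mk] at this
  refine prism_lift A hA hgen _ τ hτ hev ?_
  obtain ⟨m, hm⟩ := hev
  omega

end Pool.Agent.N81.Cay
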