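import Pool.Agent.N81.Cay.Exch

/-!
A spanning matching from weighted links with large cuts and bounded loads.
-/

namespace Pool.Agent.N81.Cay

universe u

open Classical in
theorem spanning_of_cut {V : Type u} [Fintype V] [DecidableEq V] (r : Setoid V) (E : V → V → Prop)
    (hsym : ∀ x y, E x y → E y x) {J : Type*} [Fintype J] (l l' : J → V) (ω : J → ℝ)
    (hω : ∀ j, 0 ≤ ω j) (L : ℝ) (hL : 0 < L) (hE : ∀ j, ¬ r (l j) (l' j) → E (l j) (l' j))
    (load : ∀ v, (∑ j, if l j = v then ω j else 0) + (∑ j, if l' j = v then ω j else 0) ≤ L)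
    (cut : ∀ X : Set V, (∀ x ∈ X, ∀ y, r x y → y ∈ X) → X.Nonempty → X ≠ Set.univ →
      2 * L ≤ ∑ j, if (l j ∈ X ∧ l' j ∉ X) then ω j else 0) :
    ∃ M, Spans r E M := by
  rcases tight r E hsym with h | ⟨M, F, hM, hFM, hcard, hF⟩
  · exact h
  · exfalso
    have : Fintype (Quotient (conn r F)) := Fintype.ofFinite _
    rw [Nat.card_eq_fintype_card] at hcard
    set S : Finset V := Finset.univ.filter fun v => ¬ ∀ e ∈ M \ F, ¬ On v e with hS
    have hScard : S.card ≤ 2 * (M \ F).card := by
      have h1 : S ⊆ (M \ F).image Prod.fst ∪ (M \ F).image Prod.snd := by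
        intro v hv
        rw [hS, Finset.mem_filter] at hv
        have h2 := hv.2
        push Not at h2
        obtain ⟨e, he, h3 | h3⟩ := h2
        · exact Finset.mem_union_left _ (Finset.mem_image.2 ⟨e, he, h3⟩)
        · exact Finset.mem_union_right _ (Finset.mem_image.2 ⟨e, he, h3⟩)
      have h2 := Finset.card_le_card h1
      have h3 := Finset.card_union_le ((M \ F).image Prod.fst) ((M \ F).image Prod.snd)
      have h4 : ((M \ F).image Prod.fst).card ≤ (M \ F).card := Finset.card_image_le
      have h5 : ((M \ F).image Prod.snd).card ≤ (M \ F).card := Finset.card_image_le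
      omega
    let cl : V → Quotient (conn r F) := fun v => Quotient.mk _ v
    have hcl : ∀ a b, cl a = cl b ↔ conn r F a b := fun a b =>
      ⟨fun h => Quotient.exact h, fun h => Quotient.sound h⟩
    -- lower bound for each class
    have hlow : ∀ p : Quotient (conn r F),
        2 * L ≤ ∑ j, if (cl (l j) = p ∧ cl (l' j) ≠ p) then ω j else 0 := by
      intro p
      have h1 := cut {v | cl v = p} ?_ ?_ ?_
      · refine h1.trans (le_of_eq (Finset.sum_congr rfl fun j _ => ?_))
        by_cases hj : cl (l j) = p ∧ cl (l' j) ≠ p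
        · rw [if_pos hj]; exact if_pos hj
        · rw [if_neg hj]; exact if_neg hj
      · intro x hx y hxy
        change cl x = p at hx
        change cl y = p
        rw [← hx, hcl]
        exact ss (le_conn r F hxy)
      · induction p using Quotient.inductionOn with | _ a
        exact ⟨a, rfl⟩
      · intro huniv
        have h2 : ∀ q : Quotient (conn r F), q = p := by
          intro q
          induction q using Quotient.inductionOn with | _ a
          have : a ∈ {v | cl v = p} := by rw [huniv]; exact Set.mem_univ a
          exact this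
        have h3 : Fintype.card (Quotient (conn r F)) ≤ 1 :=
          Fintype.card_le_one_iff.2 fun a b => (h2 a).trans (h2 b).symm
        omega
    -- sum over the classes
    have hsum : ∑ p : Quotient (conn r F), ∑ j, (if (cl (l j) = p ∧ cl (l' j) ≠ p) then ω j else 0)
        = ∑ j, if ¬ conn r F (l j) (l' j) then ω j else 0 := by
      rw [Finset.sum_comm]
      apply Finset.sum_congr rfl
      intro j _
      rw [Finset.sum_eq_single (cl (l j))]
      · by_cases h : conn r F (l j) (l' j)
        · rw [if_neg (by rintro ⟨_, h2⟩; exact h2 ((hcl _ _).2 (ss h))), if_neg (not_not.2 h)]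
        · rw [if_pos ⟨rfl, fun h2 => h (ss ((hcl _ _).1 h2))⟩, if_pos h]
      · intro p _ hp
        rw [if_neg (by rintro ⟨h1, _⟩; exact hp h1.symm)]
      · intro h; exact absurd (Finset.mem_univ _) h
    have h1 : (Fintype.card (Quotient (conn r F)) : ℝ) * (2 * L) ≤
        ∑ j, if ¬ conn r F (l j) (l' j) then ω j else 0 := by
      rw [← hsum, ← Finset.card_univ, ← nsmul_eq_mul]
      exact Finset.card_nsmul_le_sum _ _ _ fun p _ => hlow p
    -- upper bound
    have h2 : ∑ j, (if ¬ conn r F (l j) (l' j) then ω j else 0) ≤
        ∑ v ∈ S, ((∑ j, if l j = v then ω j else 0) + (∑ j, if l' j = v then ω j else 0)) := by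
      rw [Finset.sum_add_distrib, Finset.sum_comm, Finset.sum_comm (s := S) (t := Finset.univ)
        (f := fun v j => if l' j = v then ω j else 0), ← Finset.sum_add_distrib]
      apply Finset.sum_le_sum
      intro j _
      rw [Finset.sum_ite_eq, Finset.sum_ite_eq]
      have hj := hω j
      by_cases h : conn r F (l j) (l' j)
      · rw [if_neg (not_not.2 h)]
        positivity
      · rw [if_pos h]
        have hr : ¬ r (l j) (l' j) := fun h' => h (le_conn r F h')
        have h3 : l j ∈ S ∨ l' j ∈ S := by
          by_contra hc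
          rw [not_or, hS, Finset.mem_filter, Finset.mem_filter] at hc
          have h4 : ∀ e ∈ M \ F, ¬ On (l j) e := by
            by_contra h5; exact hc.1 ⟨Finset.mem_univ _, h5⟩
          have h6 : ∀ e ∈ M \ F, ¬ On (l' j) e := by
            by_contra h5; exact hc.2 ⟨Finset.mem_univ _, h5⟩
          exact h (hF _ _ h4 h6 (hE j hr))
        rcases h3 with h3 | h3
        · rw [if_pos h3]
          have : 0 ≤ (if l' j ∈ S then ω j else 0) := by split_ifs <;> simp [hj]
          linarith
        · rw [if_pos h3]
          have : 0 ≤ (if l j ∈ S then ω j else 0) := by split_ifs <;> simp [hj]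
          linarith
    have h3 : ∑ v ∈ S, ((∑ j, if l j = v then ω j else 0) + (∑ j, if l' j = v then ω j else 0)) ≤
        S.card * L := by
      rw [← nsmul_eq_mul]
      exact Finset.sum_le_card_nsmul _ _ _ fun v _ => load v
    have h4 : (Fintype.card (Quotient (conn r F)) : ℝ) * (2 * L) ≤ S.card * L := by linarith
    have h5 : (S.card : ℝ) ≤ 2 * ((M \ F).card : ℝ) := by exact_mod_cast hScard
    have h6 : ((M \ F).card : ℝ) + 2 ≤ (Fintype.card (Quotient (conn r F)) : ℝ) := by
      exact_mod_cast hcard
    nlinarith

end Pool.Agent.N81.Cay
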