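import Pool.Agent.R759.HCPair

/-!
Statements for the project on page MP_688fd0_co (Cayley graphs).
-/

namespace Pool.Agent.N81.Cay

open Pool.Agent.R759.HC

universe u

/-- the equivalence relation generated by `r` and the pairs in `F` -/
def conn {V : Type u} (r : Setoid V) (F : Finset (V × V)) : Setoid V :=
  r ⊔ Relation.EqvGen.setoid (fun a b => (a, b) ∈ F)

/-- `v` is an end of the pair `e` -/
def On {V : Type u} (v : V) (e : V × V) : Prop := e.1 = v ∨ e.2 = v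

/-- pairwise disjoint pairs of distinct `E`-related elements -/
structure IsMat {V : Type u} (E : V → V → Prop) (M : Finset (V × V)) : Prop where
  edge : ∀ e ∈ M, E e.1 e.2
  ne : ∀ e ∈ M, e.1 ≠ e.2
  disj : ∀ e ∈ M, ∀ f ∈ M, ∀ v, On v e → On v f → e = f

/-- a matching which, together with the classes of `r`, forms a spanning tree -/
structure Spans {V : Type u} [DecidableEq V] (r : Setoid V) (E : V → V → Prop)
    (M : Finset (V × V)) : Prop where
  mat : IsMat E M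
  forest : ∀ e ∈ M, ¬ conn r (M.erase e) e.1 e.2
  top : ∀ x y, conn r M x y

/-- the closure argument: a matching which spans, or a pair `F ⊆ M` such that `F` has at least
`|M \ F| + 2` components and `E`-edges not touching `M \ F` stay inside the components of `F` -/
def S_tight : Prop :=
  ∀ {V : Type u} [Fintype V] [DecidableEq V] (r : Setoid V) (E : V → V → Prop)
    (_ : ∀ x y, E x y → E y x),
    (∃ M, Spans r E M) ∨
    ∃ M F : Finset (V × V), IsMat E M ∧ F ⊆ M ∧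
      (M \ F).card + 2 ≤ Nat.card (Quotient (conn r F)) ∧
      ∀ u v, (∀ e ∈ M \ F, ¬ On u e) → (∀ e ∈ M \ F, ¬ On v e) → E u v → conn r F u v

/-- the weighted cut bound -/
def S_cut : Prop :=
  ∀ {G : Type u} [Group G] [Fintype G] (H : Subgroup G) (C : Set G)
    (_ : Subgroup.closure ((H : Set G) ∪ C) = ⊤) (_ : H ≠ ⊤),
    ∃ (k : ℕ) (c : Fin k → G) (w : Fin k → ℝ), (∀ i, c i ∈ C) ∧ (∀ i, 0 ≤ w i) ∧ ∑ i, w i = 1 ∧
      ∀ X : Set G, (∀ x ∈ X, ∀ h ∈ H, x * h ∈ X) → X.Nonempty → X ≠ Set.univ →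
        (Nat.card H : ℝ) ≤ ∑ i, w i * (Nat.card {x : G // x ∈ X ∧ x * c i ∉ X} : ℝ)

/-- `{x, y}` is an edge of the cycles of `ρ` -/
def Edge {V : Type u} (ρ : Equiv.Perm V) (x y : V) : Prop := ρ x = y ∨ ρ y = x

/-- merging two cycles of a permutation: the edges `{p, p'}` and `{q, q'}` are replaced by
`{p, q}` and `{p', q'}` -/
def S_merge : Prop :=
  ∀ {V : Type u} [Finite V] (R : V → V → Prop) (_ : ∀ x y, R x y → R y x)
    (ρ : Equiv.Perm V) (_ : ∀ x, ρ (ρ x) ≠ x) (p p' q q' : V) (_ : Edge ρ p p')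
    (_ : Edge ρ q q') (_ : ¬ ρ.SameCycle p q) (_ : R p q) (_ : R p' q'),
    ∃ ρ' : Equiv.Perm V, (∀ x, ρ' (ρ' x) ≠ x) ∧
      (∀ x, R x (ρ' x) ∨
        (Edge ρ x (ρ' x) ∧ s(x, ρ' x) ≠ s(p, p') ∧ s(x, ρ' x) ≠ s(q, q'))) ∧
      (∀ x y, Edge ρ x y → s(x, y) ≠ s(p, p') → s(x, y) ≠ s(q, q') → Edge ρ' x y) ∧
      (∀ x y, ρ'.SameCycle x y ↔ ρ.SameCycle x y ∨ (ρ.SameCycle x p ∧ ρ.SameCycle q y) ∨
        (ρ.SameCycle x q ∧ ρ.SameCycle p y))

/-- a cyclic permutation of the subgroup `H` extends by left translations to all cosets -/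
def S_ext : Prop :=
  ∀ {G : Type u} [Group G] [Finite G] (A : Set G) (_ : ∀ x ∈ A, x⁻¹ ∈ A) (H : Subgroup G)
    (τ : Equiv.Perm G) (_ : CycOn A (H : Set G) τ),
    ∃ σ : Equiv.Perm G, (∀ x, x⁻¹ * σ x ∈ A) ∧
      (∀ x y, σ.SameCycle x y ↔ x⁻¹ * y ∈ H) ∧
      (∀ s, (∀ x ∈ H, Edge τ x (x * s)) → ∀ x, Edge σ x (x * s))

/-- a Hamiltonian cycle of a subgroup of even order gives one of its prism which contains all
vertical edges -/
def S_prism : Prop :=
  ∀ {G : Type u} [Group G] [Finite G] (A : Set G) (_ : ∀ x ∈ A, x⁻¹ ∈ A) (H : Subgroup G)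
    (τ : Equiv.Perm G) (_ : CycOn A (H : Set G) τ) (_ : Even (Nat.card H)) 
    (A' : Set (G × Multiplicative (ZMod 2))) (_ : ∀ x ∈ A, (x, 1) ∈ A')
    (_ : ((1 : G), Multiplicative.ofAdd (1 : ZMod 2)) ∈ A'),
    ∃ τ' : Equiv.Perm (G × Multiplicative (ZMod 2)),
      CycOn A' ((H.prod ⊤ : Subgroup (G × Multiplicative (ZMod 2))) : Set _) τ' ∧
      ∀ x ∈ (H.prod ⊤ : Subgroup (G × Multiplicative (ZMod 2))),
        Edge τ' x (x * ((1 : G), Multiplicative.ofAdd (1 : ZMod 2)))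

/-- the closed walk: cycles of `σ` and a spanning matching between them -/
def S_walk : Prop :=
  ∀ {V : Type u} [Fintype V] [DecidableEq V] (R : V → V → Prop) (_ : ∀ x y, R x y → R y x)
    (σ : Equiv.Perm V) (_ : ∀ x, R x (σ x)) (_ : ∀ x, σ (σ x) ≠ x) (r : Setoid V)
    (_ : ∀ x y, r x y ↔ σ.SameCycle x y)
    (M : Finset (V × V)) (_ : Spans r R M) (_ : Nonempty V),
    ∃ f : ℕ → V, (∀ k, R (f k) (f (k + 1))) ∧
      (∀ k, f (k + (Fintype.card V + 2 * M.card)) = f k) ∧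
      ∀ v, 1 ≤ Nat.card {k : Fin (Fintype.card V + 2 * M.card) // f k = v} ∧
        Nat.card {k : Fin (Fintype.card V + 2 * M.card) // f k = v} ≤ 2

end Pool.Agent.N81.Cay
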