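import Pool.Agent.N81.Cay.Norm
import Pool.Agent.N768.CayD

/-!
Closed spanning walks which visit every vertex at most twice.
-/

namespace Pool.Agent.N81.Cay

open Pool.Agent.R759.HC

universe u

theorem spans_card {V : Type u} [Finite V] [DecidableEq V] {r : Setoid V} {E : V → V → Prop}
    {M : Finset (V × V)} (hM : Spans r E M) [Nonempty V] : nc r = M.card + 1 := by
  have key : ∀ D : Finset (V × V), D ⊆ M → nc r = nc (conn r D) + D.card := by
    intro D
    induction D using Finset.induction_on with
    | empty => intro _; rw [conn_empty, Finset.card_empty, add_zero]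
    | insert e D heD ih =>
      intro hD
      rw [ih ((Finset.subset_insert e D).trans hD), Finset.card_insert_of_notMem heD,
        nc_insert r D e ?_]
      · ring
      · intro h
        refine hM.forest e (hD (Finset.mem_insert_self e D)) (conn_mono r ?_ h)
        intro f hf
        rw [Finset.mem_erase]
        exact ⟨fun h'' => heD (h'' ▸ hf), hD (Finset.mem_insert_of_mem hf)⟩
  have h1 := key M le_rfl
  have h2 : nc (conn r M) = 1 := by
    unfold nc
    rw [Nat.card_eq_one_iff_unique]
    refine ⟨⟨fun a b => ?_⟩, ?_⟩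
    · induction a using Quotient.inductionOn with | _ a
      induction b using Quotient.inductionOn with | _ b
      exact Quotient.sound (hM.top a b)
    · obtain ⟨v⟩ := ‹Nonempty V›
      exact ⟨Quotient.mk _ v⟩
  rw [h1, h2, add_comm]

theorem rotate_card {V : Type u} (f : ℕ → V) {m : ℕ} (hm : 0 < m) (hf : ∀ k, f (k + m) = f k)
    (v : V) : Nat.card {k : Fin m // f (k + 1) = v} = Nat.card {k : Fin m // f k = v} := by
  obtain ⟨n, rfl⟩ : ∃ n, m = n + 1 := ⟨m - 1, by omega⟩
  have key : ∀ k : Fin (n + 1), f (finRotate (n + 1) k : Fin (n + 1)) = f (k + 1) := by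
    intro k
    rcases eq_or_ne k (Fin.last n) with rfl | hk
    · rw [finRotate_last]
      change f 0 = f (n + 1)
      have := hf 0
      rw [zero_add] at this
      exact this.symm
    · rw [coe_finRotate_of_ne_last hk]
  apply Nat.card_congr
  refine (finRotate (n + 1)).subtypeEquiv ?_
  intro k
  rw [key]

open Classical in
theorem two_walk {G : Type u} [Group G] [Finite G] (A : Set G) (hA : ∀ x ∈ A, x⁻¹ ∈ A)
    (hgen : Subgroup.closure A = ⊤) (H : Subgroup G) (τ : Equiv.Perm G)
    (hτ : CycOn A (H : Set G) τ) (h4 : 4 ≤ Nat.card H) :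
    ∃ l : List G, (∀ a ∈ l, a ∈ A) ∧ l.prod = 1 ∧
      (l.length + 2) * Nat.card H = Nat.card G * (Nat.card H + 2) ∧
      ∀ g : G, 1 ≤ Nat.card {k : Fin l.length // (l.take (k + 1)).prod = g} ∧
        Nat.card {k : Fin l.length // (l.take (k + 1)).prod = g} ≤ 2 := by
  have : Fintype G := Fintype.ofFinite G
  obtain ⟨σ, hσA, hσc, -⟩ := Pool.Agent.N455.CayC.ext A hA H τ hτ
  have hlong := long_cycles (by omega : 3 ≤ Nat.card H) hσc
  let r : Setoid G := QuotientGroup.leftRel H
  have hr : ∀ x y, r x y ↔ σ.SameCycle x y := by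
    intro x y
    rw [hσc]
    exact QuotientGroup.leftRel_apply
  let R : G → G → Prop := fun x y => x⁻¹ * y ∈ A
  have hR : ∀ x y, R x y → R y x := by
    intro x y h
    have := hA _ h
    rwa [mul_inv_rev, inv_inv] at this
  have hsp : ∃ M, Spans r R M := by
    by_cases htop : H = ⊤
    · refine ⟨∅, ⟨fun e he => absurd he (Finset.notMem_empty e),
        fun e he => absurd he (Finset.notMem_empty e),
        fun e he => absurd he (Finset.notMem_empty e)⟩,
        fun e he => absurd he (Finset.notMem_empty e), ?_⟩
      intro x y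
      rw [conn_empty, hr, hσc, htop]
      exact Subgroup.mem_top _
    · obtain ⟨k, c, w, hcC, hw0, hw1, hcut⟩ := Pool.Agent.N342.CayB.cut H A (by
        rw [eq_top_iff, ← hgen]
        exact Subgroup.closure_mono Set.subset_union_right) htop
      refine spanning_of_cut r R hR (J := G × Fin k) (fun j => j.1)
        (fun j => j.1 * c j.2) (fun j => w j.2) (fun j => hw0 j.2) 2 (by norm_num) ?_ ?_ ?_
      · rintro ⟨x, i⟩ _
        change x⁻¹ * (x * c i) ∈ A
        rw [inv_mul_cancel_left]
        exact hcC i
      · intro v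
        rw [sum_weights w (fun j : G × Fin k => j.1 = v),
          sum_weights w (fun j : G × Fin k => j.1 * c j.2 = v)]
        have c1 : (Nat.card {x : G // x = v} : ℝ) = 1 := by
          have h1 : Nat.card {x : G // x = v} = 1 :=
            Nat.card_eq_one_iff_unique.2 ⟨⟨fun a b => Subtype.ext (a.2.trans b.2.symm)⟩, ⟨v, rfl⟩⟩
          rw [h1, Nat.cast_one]
        have c2 : ∀ i, (Nat.card {x : G // x * c i = v} : ℝ) = 1 := by
          intro i
          have h1 : Nat.card {x : G // x * c i = v} = 1 :=
            Nat.card_eq_one_iff_unique.2 ⟨⟨fun a b => Subtype.ext (mul_right_cancel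
              (a.2.trans b.2.symm : (a : G) * c i = (b : G) * c i))⟩,
              ⟨v * (c i)⁻¹, inv_mul_cancel_right _ _⟩⟩
          rw [h1, Nat.cast_one]
        have e1 : ∑ i, w i * (Nat.card {x : G // x = v} : ℝ) = 1 := by
          rw [← hw1]
          exact Finset.sum_congr rfl fun i _ => by rw [c1, mul_one]
        have e2 : ∑ i, w i * (Nat.card {x : G // x * c i = v} : ℝ) = 1 := by
          rw [← hw1]
          exact Finset.sum_congr rfl fun i _ => by rw [c2 i, mul_one]
        have e1' : ∑ i, w i * (Nat.card {x : G // (x, i).1 = v} : ℝ) = 1 := e1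
        have e2' : ∑ i, w i * (Nat.card {x : G // (x, i).1 * c (x, i).2 = v} : ℝ) = 1 := e2
        linarith
      · intro X hX hX1 hX2
        have hXH : ∀ x ∈ X, ∀ h ∈ H, x * h ∈ X := by
          intro x hx h hh
          refine hX x hx _ ?_
          rw [hr, hσc, inv_mul_cancel_left]
          exact hh
        have h1 := hcut X hXH hX1 hX2
        have h4' : (4 : ℝ) ≤ Nat.card H := by exact_mod_cast h4
        rw [sum_weights w (fun j : G × Fin k => j.1 ∈ X ∧ j.1 * c j.2 ∉ X)]
        linarith
  obtain ⟨M, hM⟩ := hsp
  have : Nonempty G := ⟨1⟩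
  obtain ⟨f, f1, f2, f3⟩ := Pool.Agent.N768.CayD.walk Pool.Agent.N319.CayA.merge R hR σ hσA hlong
    r hr M hM ⟨1⟩
  set m := Fintype.card G + 2 * M.card with hm
  have hmpos : 0 < m := by
    have : 0 < Fintype.card G := Fintype.card_pos
    omega
  let a : Fin m → G := fun k => (f k)⁻¹ * f (k + 1)
  have hlen : (List.ofFn a).length = m := List.length_ofFn
  have hprod : ∀ k, k ≤ m → ((List.ofFn a).take k).prod = (f 0)⁻¹ * f k := by
    intro k
    induction k with
    | zero => intro _; simp
    | succ k ih =>
      intro hk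
      have hk' : k < (List.ofFn a).length := by rw [hlen]; omega
      rw [List.take_succ_eq_append_getElem hk', List.prod_append, ih (by omega)]
      simp only [List.getElem_ofFn, List.prod_cons, List.prod_nil, mul_one, a]
      group
  refine ⟨List.ofFn a, ?_, ?_, ?_, ?_⟩
  · intro x hx
    rw [List.mem_ofFn] at hx
    obtain ⟨i, rfl⟩ := hx
    exact f1 i
  · have h1 := hprod m le_rfl
    rw [List.take_of_length_le (by rw [hlen])] at h1
    rw [h1]
    have := f2 0
    rw [zero_add] at this
    rw [this, inv_mul_cancel]
  · rw [hlen]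
    have h1 := spans_card hM
    have h2 : nc r = H.index := by
      unfold nc
      rfl
    have h3 : H.index * Nat.card H = Nat.card G := by
      rw [mul_comm]; exact H.card_mul_index
    rw [← Nat.card_eq_fintype_card] at hm
    have h5 : M.card + 1 = H.index := by omega
    have h6 : m + 2 = Nat.card G + 2 * H.index := by omega
    rw [h6, add_mul, mul_assoc, h3]
    ring
  · intro g
    have h1 : Nat.card {k : Fin (List.ofFn a).length // ((List.ofFn a).take (k + 1)).prod = g} =
        Nat.card {k : Fin m // f (k + 1) = f 0 * g} := by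
      apply Nat.card_congr
      refine (finCongr hlen).subtypeEquiv ?_
      intro k
      have hk := k.2
      rw [hprod (k + 1) (by omega)]
      constructor
      · intro h
        rw [← h, mul_inv_cancel_left]; rfl
      · intro h
        have h' : f (k + 1) = f 0 * g := h
        rw [h', inv_mul_cancel_left]
    rw [h1, rotate_card f hmpos f2]
    exact f3 _

end Pool.Agent.N81.Cay
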